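import Pool.Agent.TH107.BH.Inj

set_option autoImplicit false

/-!
Finite presentability of the group generated by `P` and the finitary permutations of three copies.
-/

namespace Pool.Agent.TH107.BH

open Equiv

universe u v w

section
variable {X : Type v} {P : Type w} [Group P]

/-- the pointwise stabilizer of a pair -/
def pst (π : P →* Perm (X × Fin 3)) (a b : X × Fin 3) : Subgroup P where
  carrier := {p | π p a = a ∧ π p b = b}
  one_mem' := by simp
  mul_mem' := by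
    rintro p q ⟨h1, h2⟩ ⟨h3, h4⟩
    simp only [Set.mem_setOf_eq, map_mul, Perm.mul_apply]
    exact ⟨by rw [h3, h1], by rw [h4, h2]⟩
  inv_mem' := by
    rintro p ⟨h1, h2⟩
    simp only [Set.mem_setOf_eq, map_inv, Perm.inv_eq_iff_eq]
    exact ⟨h1.symm, h2.symm⟩

theorem mem_pst {π : P →* Perm (X × Fin 3)} {a b : X × Fin 3} {p : P} :
    p ∈ pst π a b ↔ π p a = a ∧ π p b = b := Iff.rfl

/-- the hypotheses on the action of `P` on three copies of `X` -/
structure Good (π : P →* Perm (X × Fin 3)) : Prop where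
  copy : ∀ p z, (π p z).2 = z.2
  nf : ∀ p, {z | π p z ≠ z}.Finite → p = 1
  orb2 : ∃ T : Set ((X × Fin 3) × (X × Fin 3)), T.Finite ∧ (∀ t ∈ T, t.1.2 ≠ t.2.2) ∧
    ∀ a b : X × Fin 3, a.2 ≠ b.2 → ∃ t ∈ T, ∃ p : P, π p t.1 = a ∧ π p t.2 = b
  stab2 : ∀ a b : X × Fin 3, a.2 ≠ b.2 → (pst π a b).FG
  orb3 : ∃ T : Set ((X × Fin 3) × (X × Fin 3) × (X × Fin 3)), T.Finite ∧
    ∀ a b c : X × Fin 3, a.2 ≠ b.2 → b.2 ≠ c.2 → a.2 ≠ c.2 → ∃ t ∈ T, ∃ p : P,
      π p t.1 = a ∧ π p t.2.1 = b ∧ π p t.2.2 = c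
  orb3' : ∃ T : Set ((X × Fin 3) × (X × Fin 3) × (X × Fin 3)), T.Finite ∧
    ∀ a b c : X × Fin 3, a ≠ b → a.2 = b.2 → a.2 ≠ c.2 → ∃ t ∈ T, ∃ p : P,
      π p t.1 = a ∧ π p t.2.1 = b ∧ π p t.2.2 = c
  orb4 : ∃ T : Set ((X × Fin 3) × (X × Fin 3) × (X × Fin 3) × (X × Fin 3)), T.Finite ∧
    ∀ a b c d : X × Fin 3, a ≠ b → a.2 = b.2 → a.2 ≠ c.2 → a.2 ≠ d.2 → c.2 ≠ d.2 →
      ∃ t ∈ T, ∃ p : P, π p t.1 = a ∧ π p t.2.1 = b ∧ π p t.2.2.1 = c ∧ π p t.2.2.2 = d

variable [DecidableEq X]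

/-- the group before imposing relations acts through `π` and swaps -/
noncomputable def qE (π : P →* Perm (X × Fin 3)) (T : Set ((X × Fin 3) × (X × Fin 3))) :
    Monoid.Coprod P (FreeGroup T) →* Perm (X × Fin 3) :=
  Monoid.Coprod.lift π (FreeGroup.lift fun t : T => swap t.1.1 t.1.2)

/-- conjugates of the generators -/
noncomputable def W {T : Set ((X × Fin 3) × (X × Fin 3))} (p : P) (t : T) :
    Monoid.Coprod P (FreeGroup T) :=
  Monoid.Coprod.inl p * Monoid.Coprod.inr (FreeGroup.of t) * (Monoid.Coprod.inl p)⁻¹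

theorem qE_inl (π : P →* Perm (X × Fin 3)) (T : Set ((X × Fin 3) × (X × Fin 3))) (p : P) :
    qE π T (Monoid.Coprod.inl p) = π p := by
  unfold qE
  rw [Monoid.Coprod.lift_apply_inl]

theorem qE_of (π : P →* Perm (X × Fin 3)) (T : Set ((X × Fin 3) × (X × Fin 3))) (t : T) :
    qE π T (Monoid.Coprod.inr (FreeGroup.of t)) = swap t.1.1 t.1.2 := by
  unfold qE
  rw [Monoid.Coprod.lift_apply_inr, FreeGroup.lift_apply_of]

theorem qE_W (π : P →* Perm (X × Fin 3)) (T : Set ((X × Fin 3) × (X × Fin 3))) (p : P) (t : T) :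
    qE π T (W p t) = swap (π p t.1.1) (π p t.1.2) := by
  unfold W
  rw [map_mul, map_mul, map_inv, qE_inl, qE_of, swap_apply_apply]

theorem ker_fng {π : P →* Perm (X × Fin 3)} (hG : Good π) (T : Set ((X × Fin 3) × (X × Fin 3)))
    (hTf : T.Finite) (hT : ∀ t ∈ T, t.1.2 ≠ t.2.2)
    (hTc : ∀ a b : X × Fin 3, a.2 ≠ b.2 → ∃ t ∈ T, ∃ p : P, π p t.1 = a ∧ π p t.2 = b) :
    (qE π T).ker.IsFinitelyNormallyGenerated := by
  classical
  have hTfin : Finite T := hTf
  obtain ⟨T3, hT3f, hT3⟩ := hG.orb3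
  obtain ⟨T4, hT4f, hT4⟩ := hG.orb3'
  obtain ⟨T5, hT5f, hT5⟩ := hG.orb4
  -- words for all transversal pairs
  have hw : ∀ a b : X × Fin 3, ∃ w : Monoid.Coprod P (FreeGroup T), a.2 ≠ b.2 →
      ∃ (t : T) (p : P), π p t.1.1 = a ∧ π p t.1.2 = b ∧ w = W p t := by
    intro a b
    by_cases hab : a.2 ≠ b.2
    · obtain ⟨t, ht, p, h1, h2⟩ := hTc a b hab
      exact ⟨W p ⟨t, ht⟩, fun _ => ⟨⟨t, ht⟩, p, h1, h2, rfl⟩⟩
    · exact ⟨1, fun h => absurd h hab⟩
  choose w hw using hw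
  -- transporters
  have hc : ∀ t t' : T, ∃ c : P, (∃ p : P, π p t.1.1 = t'.1.1 ∧ π p t.1.2 = t'.1.2) →
      π c t.1.1 = t'.1.1 ∧ π c t.1.2 = t'.1.2 := by
    intro t t'
    by_cases h : ∃ p : P, π p t.1.1 = t'.1.1 ∧ π p t.1.2 = t'.1.2
    · obtain ⟨p, hp⟩ := h
      exact ⟨p, fun _ => hp⟩
    · exact ⟨1, fun h' => absurd h' h⟩
  choose c hc using hc
  -- finite generating sets of the stabilizers
  have hS : ∀ t : T, ∃ S : Set P, S.Finite ∧ Subgroup.closure S = pst π t.1.1 t.1.2 := by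
    intro t
    obtain ⟨S, h1, h2⟩ := (Subgroup.fg_iff _).1 (hG.stab2 t.1.1 t.1.2 (hT t.1 t.2))
    exact ⟨S, h2, h1⟩
  choose S hSf hS using hS
  let R1 : Set (Monoid.Coprod P (FreeGroup T)) := ⋃ t : T,
    (fun s : P => Monoid.Coprod.inl s * Monoid.Coprod.inr (FreeGroup.of t) *
      (Monoid.Coprod.inl s)⁻¹ * (Monoid.Coprod.inr (FreeGroup.of t))⁻¹) '' S t
  let R1' : Set (Monoid.Coprod P (FreeGroup T)) :=
    (fun u : T × T => W (c u.1 u.2) u.1 * (Monoid.Coprod.inr (FreeGroup.of u.2))⁻¹) ''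
      {u | ∃ p : P, π p u.1.1.1 = u.2.1.1 ∧ π p u.1.1.2 = u.2.1.2}
  let Rs : Set (Monoid.Coprod P (FreeGroup T)) :=
    Set.range (fun t : T => w t.1.2 t.1.1 * (Monoid.Coprod.inr (FreeGroup.of t))⁻¹)
  let R2 : Set (Monoid.Coprod P (FreeGroup T)) :=
    Set.range (fun t : T => Monoid.Coprod.inr (FreeGroup.of t) * Monoid.Coprod.inr (FreeGroup.of t))
  let R3 : Set (Monoid.Coprod P (FreeGroup T)) :=
    (fun u : (X × Fin 3) × (X × Fin 3) × (X × Fin 3) =>
      w u.1 u.2.1 * w u.2.1 u.2.2 * w u.1 u.2.1 * (w u.1 u.2.2)⁻¹) ''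
      {u ∈ T3 | u.1.2 ≠ u.2.1.2 ∧ u.2.1.2 ≠ u.2.2.2 ∧ u.1.2 ≠ u.2.2.2}
  let R4 : Set (Monoid.Coprod P (FreeGroup T)) :=
    (fun u : (X × Fin 3) × (X × Fin 3) × (X × Fin 3) =>
      w u.1 u.2.2 * w u.2.1 u.2.2 * w u.1 u.2.2 *
        (w u.2.1 u.2.2 * w u.1 u.2.2 * w u.2.1 u.2.2)⁻¹) ''
      {u ∈ T4 | u.1 ≠ u.2.1 ∧ u.1.2 = u.2.1.2 ∧ u.1.2 ≠ u.2.2.2}
  let R5 : Set (Monoid.Coprod P (FreeGroup T)) :=
    (fun u : (X × Fin 3) × (X × Fin 3) × (X × Fin 3) × (X × Fin 3) =>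
      w u.2.2.1 u.2.2.2 * (w u.1 u.2.2.1 * w u.2.1 u.2.2.1 * w u.1 u.2.2.1) *
        ((w u.1 u.2.2.1 * w u.2.1 u.2.2.1 * w u.1 u.2.2.1) * w u.2.2.1 u.2.2.2)⁻¹) ''
      {u ∈ T5 | u.1 ≠ u.2.1 ∧ u.1.2 = u.2.1.2 ∧ u.1.2 ≠ u.2.2.1.2 ∧ u.1.2 ≠ u.2.2.2.2 ∧
        u.2.2.1.2 ≠ u.2.2.2.2}
  let R : Set (Monoid.Coprod P (FreeGroup T)) := R1 ∪ R1' ∪ Rs ∪ R2 ∪ R3 ∪ R4 ∪ R5
  have hRf : R.Finite := by
    refine Set.Finite.union (Set.Finite.union (Set.Finite.union (Set.Finite.union (Set.Finite.union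
      (Set.Finite.union ?_ ?_) ?_) ?_) ?_) ?_) ?_
    · exact Set.finite_iUnion fun t => (hSf t).image _
    · exact (Set.toFinite _).image _
    · exact Set.finite_range _
    · exact Set.finite_range _
    · exact (hT3f.subset (Set.sep_subset _ _)).image _
    · exact (hT4f.subset (Set.sep_subset _ _)).image _
    · exact (hT5f.subset (Set.sep_subset _ _)).image _
  -- the images of the words
  have qw : ∀ a b : X × Fin 3, a.2 ≠ b.2 → qE π T (w a b) = swap a b := by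
    intro a b hab
    obtain ⟨t, p, h1, h2, h3⟩ := hw a b hab
    rw [h3, qE_W, h1, h2]
  have hRker : R ⊆ (qE π T).ker := by
    rintro x ((((((hx | hx) | hx) | hx) | hx) | hx) | hx)
    · obtain ⟨t, s, hs, rfl⟩ := Set.mem_iUnion.1 hx
      have hs' : s ∈ pst π t.1.1 t.1.2 := by
        rw [← hS t]; exact Subgroup.subset_closure hs
      rw [SetLike.mem_coe, MonoidHom.mem_ker]
      simp only [map_mul, map_inv, qE_inl, qE_of]
      rw [← swap_apply_apply, hs'.1, hs'.2, mul_inv_cancel]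
    · obtain ⟨⟨t, t'⟩, ht, rfl⟩ := hx
      have := hc t t' ht
      rw [SetLike.mem_coe, MonoidHom.mem_ker]
      simp only [map_mul, map_inv, qE_W, qE_of]
      rw [this.1, this.2, mul_inv_cancel]
    · obtain ⟨t, rfl⟩ := hx
      rw [SetLike.mem_coe, MonoidHom.mem_ker]
      simp only [map_mul, map_inv, qE_of]
      rw [qw _ _ (Ne.symm (hT t.1 t.2)), swap_comm, mul_inv_cancel]
    · obtain ⟨t, rfl⟩ := hx
      rw [SetLike.mem_coe, MonoidHom.mem_ker]
      simp only [map_mul, qE_of, swap_mul_self]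
    · obtain ⟨⟨a, b, d⟩, ⟨_, h1, h2, h3⟩, rfl⟩ := hx
      rw [SetLike.mem_coe, MonoidHom.mem_ker]
      simp only [map_mul, map_inv]
      simp only at h1 h2 h3
      rw [qw a b h1, qw b d h2, qw a d h3]
      have e := swap_mul_swap_mul_swap (x := d) (y := b) (z := a)
        (fun e => h2 (congrArg Prod.snd e).symm) (fun e => h3 (congrArg Prod.snd e).symm)
      rw [swap_comm a b, swap_comm b d, e, mul_inv_cancel]
    · obtain ⟨⟨a, b, d⟩, ⟨_, h0, h1, h2⟩, rfl⟩ := hx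
      rw [SetLike.mem_coe, MonoidHom.mem_ker]
      simp only [map_mul, map_inv]
      simp only at h0 h1 h2
      have h3 : b.2 ≠ d.2 := h1 ▸ h2
      rw [qw a d h2, qw b d h3]
      have e1 := swap_mul_swap_mul_swap (x := b) (y := d) (z := a)
        (fun e => h3 (congrArg Prod.snd e)) (Ne.symm h0)
      have e2 := swap_mul_swap_mul_swap (x := a) (y := d) (z := b)
        (fun e => h2 (congrArg Prod.snd e)) h0
      rw [swap_comm a d, e1, swap_comm b d, swap_comm d a, e2, swap_comm b a, mul_inv_cancel]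
    · obtain ⟨⟨a, b, d, f⟩, ⟨_, h0, h1, h2, h3, h4⟩, rfl⟩ := hx
      rw [SetLike.mem_coe, MonoidHom.mem_ker]
      simp only [map_mul, map_inv]
      simp only at h0 h1 h2 h3 h4
      have h5 : b.2 ≠ d.2 := h1 ▸ h2
      have h6 : b.2 ≠ f.2 := h1 ▸ h3
      rw [qw a d h2, qw b d h5, qw d f h4]
      have e1 := swap_mul_swap_mul_swap (x := b) (y := d) (z := a)
        (fun e => h5 (congrArg Prod.snd e)) (Ne.symm h0)
      rw [swap_comm a d, e1]
      have e3 : swap d f * swap a b = swap a b * swap d f := by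
        have := swap_apply_apply (swap d f) a b
        rw [swap_apply_of_ne_of_ne (fun e => h2 (congrArg Prod.snd e))
          (fun e => h3 (congrArg Prod.snd e)),
          swap_apply_of_ne_of_ne (fun e => h5 (congrArg Prod.snd e))
          (fun e => h6 (congrArg Prod.snd e))] at this
        rw [swap_inv] at this
        nth_rewrite 2 [this]
        rw [mul_assoc, mul_assoc, swap_mul_self, mul_one]
      rw [e3, mul_inv_cancel]
  -- the quotient
  set N := Subgroup.normalClosure R with hN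
  have hNker : N ≤ (qE π T).ker := Subgroup.normalClosure_le_normal hRker
  let k : Monoid.Coprod P (FreeGroup T) →* Monoid.Coprod P (FreeGroup T) ⧸ N :=
    QuotientGroup.mk' N
  have hk : ∀ x y, x * y⁻¹ ∈ R → k x = k y := by
    intro x y hxy
    have h1 : k (x * y⁻¹) = 1 := (QuotientGroup.eq_one_iff _).2 (Subgroup.subset_normalClosure hxy)
    rw [map_mul, map_inv] at h1
    exact mul_inv_eq_one.1 h1
  let q : Monoid.Coprod P (FreeGroup T) ⧸ N →* Perm (X × Fin 3) :=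
    QuotientGroup.lift N (qE π T) (fun x hx => hNker hx)
  have hqk : ∀ x, q (k x) = qE π T x := fun x => rfl
  let j : P →* Monoid.Coprod P (FreeGroup T) ⧸ N := k.comp Monoid.Coprod.inl
  let f : T → Monoid.Coprod P (FreeGroup T) ⧸ N := fun t => k (Monoid.Coprod.inr (FreeGroup.of t))
  have hkW : ∀ p t, k (W p t) = j p * f t * (j p)⁻¹ := by
    intro p t
    unfold W
    rw [map_mul, map_mul, map_inv]
    rfl
  -- stabilizers commute
  have hC1 : ∀ t : T, ∀ p ∈ pst π t.1.1 t.1.2, j p * f t * (j p)⁻¹ = f t := by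
    intro t p hp
    rw [← hS t] at hp
    have key : Subgroup.closure (S t) ≤ (Subgroup.centralizer {f t}).comap j := by
      rw [Subgroup.closure_le]
      intro s hs
      rw [SetLike.mem_coe, Subgroup.mem_comap, Subgroup.mem_centralizer_singleton_iff]
      have h1 : k (Monoid.Coprod.inl s * Monoid.Coprod.inr (FreeGroup.of t) *
          (Monoid.Coprod.inl s)⁻¹) = k (Monoid.Coprod.inr (FreeGroup.of t)) := by
        apply hk
        left; left; left; left; left; left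
        exact Set.mem_iUnion.2 ⟨t, s, hs, rfl⟩
      rw [map_mul, map_mul, map_inv] at h1
      have h2 : j s * f t * (j s)⁻¹ = f t := h1
      exact mul_inv_eq_iff_eq_mul.1 h2
    have h1 := key hp
    rw [Subgroup.mem_comap, Subgroup.mem_centralizer_singleton_iff] at h1
    exact mul_inv_eq_iff_eq_mul.2 h1
  have hC1' : ∀ t t' : T, (∃ p : P, π p t.1.1 = t'.1.1 ∧ π p t.1.2 = t'.1.2) →
      j (c t t') * f t * (j (c t t'))⁻¹ = f t' := by
    intro t t' h
    rw [← hkW]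
    apply hk
    left; left; left; left; left; right
    exact ⟨(t, t'), h, rfl⟩
  have hC0 : ∀ (t t' : T) (g : P), π g t.1.1 = t'.1.1 → π g t.1.2 = t'.1.2 →
      j g * f t * (j g)⁻¹ = f t' := by
    intro t t' g h1 h2
    have h3 := hc t t' ⟨g, h1, h2⟩
    have h4 : (c t t')⁻¹ * g ∈ pst π t.1.1 t.1.2 := by
      rw [mem_pst, map_mul, map_inv, Perm.mul_apply, Perm.mul_apply, h1, h2, Perm.inv_eq_iff_eq,
        Perm.inv_eq_iff_eq]
      exact ⟨h3.1.symm, h3.2.symm⟩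
    have h5 := hC1 t _ h4
    rw [← hC1' t t' ⟨g, h1, h2⟩]
    nth_rewrite 2 [← h5]
    rw [map_mul, map_inv]
    group
  have hC2 : ∀ (t t' : T) (p p' : P), π p t.1.1 = π p' t'.1.1 → π p t.1.2 = π p' t'.1.2 →
      k (W p t) = k (W p' t') := by
    intro t t' p p' h1 h2
    rw [hkW, hkW]
    have h3 := hC0 t t' (p'⁻¹ * p)
      (by rw [map_mul, map_inv, Perm.mul_apply, Perm.inv_eq_iff_eq, h1])
      (by rw [map_mul, map_inv, Perm.mul_apply, Perm.inv_eq_iff_eq, h2])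
    rw [← h3, map_mul, map_inv]
    group
  let s : X × Fin 3 → X × Fin 3 → Monoid.Coprod P (FreeGroup T) ⧸ N := fun a b => k (w a b)
  have he : ∀ p a b, a.2 ≠ b.2 → j p * s a b * (j p)⁻¹ = s (π p a) (π p b) := by
    intro p a b hab
    obtain ⟨t, p0, h1, h2, h3⟩ := hw a b hab
    obtain ⟨t', p', h1', h2', h3'⟩ := hw (π p a) (π p b) (by rw [hG.copy, hG.copy]; exact hab)
    change j p * k (w a b) * (j p)⁻¹ = k (w (π p a) (π p b))
    rw [h3, h3', ← hC2 t t' (p * p0) p'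
      (by rw [map_mul, Perm.mul_apply, h1, h1']) (by rw [map_mul, Perm.mul_apply, h2, h2']), hkW,
      hkW, map_mul]
    group
  have hst : ∀ t : T, s t.1.1 t.1.2 = f t := by
    intro t
    obtain ⟨t', p', h1', h2', h3'⟩ := hw t.1.1 t.1.2 (hT t.1 t.2)
    change k (w t.1.1 t.1.2) = f t
    rw [h3', ← hC2 t t' 1 p' (by rw [h1', map_one, Perm.one_apply])
      (by rw [h2', map_one, Perm.one_apply]), hkW, map_one]
    group
  have hst' : ∀ t : T, s t.1.2 t.1.1 = f t := by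
    intro t
    apply hk
    left; left; left; left; right
    exact ⟨t, rfl⟩
  have hpre : Pre s := by
    refine ⟨?_, ?_, ?_, ?_, ?_⟩
    · intro a b hab
      obtain ⟨t, p, h1, h2, _⟩ := hw a b hab
      rw [← h1, ← h2, ← he p _ _ (hT t.1 t.2), ← he p _ _ (Ne.symm (hT t.1 t.2)), hst, hst']
    · intro a b hab
      obtain ⟨t, p, h1, h2, _⟩ := hw a b hab
      rw [← h1, ← h2, ← he p _ _ (hT t.1 t.2), hst]
      have h3 : f t * f t = 1 := by
        have : k (Monoid.Coprod.inr (FreeGroup.of t) * Monoid.Coprod.inr (FreeGroup.of t)) = 1 := by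
          refine (QuotientGroup.eq_one_iff _).2 (Subgroup.subset_normalClosure ?_)
          left; left; left; right
          exact ⟨t, rfl⟩
        rw [map_mul] at this
        exact this
      calc j p * f t * (j p)⁻¹ * (j p * f t * (j p)⁻¹) = j p * (f t * f t) * (j p)⁻¹ := by group
        _ = 1 := by rw [h3]; group
    · intro a b d hab hbd had
      obtain ⟨⟨a0, b0, d0⟩, hu, p, h1, h2, h3⟩ := hT3 a b d hab hbd had
      simp only at h1 h2 h3
      have g1 : a0.2 ≠ b0.2 := by rw [← h1, ← h2, hG.copy, hG.copy] at hab; exact hab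
      have g2 : b0.2 ≠ d0.2 := by rw [← h2, ← h3, hG.copy, hG.copy] at hbd; exact hbd
      have g3 : a0.2 ≠ d0.2 := by rw [← h1, ← h3, hG.copy, hG.copy] at had; exact had
      have h4 : k (w a0 b0 * w b0 d0 * w a0 b0) = k (w a0 d0) := by
        apply hk
        left; left; right
        exact ⟨(a0, b0, d0), ⟨hu, g1, g2, g3⟩, rfl⟩
      have h5 : s a0 b0 * s b0 d0 * s a0 b0 = s a0 d0 := by
        rw [map_mul, map_mul] at h4
        exact h4
      rw [← h1, ← h2, ← h3, ← he p _ _ g1, ← he p _ _ g2, ← he p _ _ g3, ← h5]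
      group
    · intro a b d h0 hab had
      obtain ⟨⟨a0, b0, d0⟩, hu, p, h1, h2, h3⟩ := hT4 a b d h0 hab had
      simp only at h1 h2 h3
      have g0 : a0 ≠ b0 := by rintro rfl; exact h0 (h1.symm.trans h2)
      have g1 : a0.2 = b0.2 := by rw [← h1, ← h2, hG.copy, hG.copy] at hab; exact hab
      have g3 : a0.2 ≠ d0.2 := by rw [← h1, ← h3, hG.copy, hG.copy] at had; exact had
      have g2 : b0.2 ≠ d0.2 := g1 ▸ g3
      have h4 : k (w a0 d0 * w b0 d0 * w a0 d0) = k (w b0 d0 * w a0 d0 * w b0 d0) := by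
        apply hk
        left; right
        exact ⟨(a0, b0, d0), ⟨hu, g0, g1, g3⟩, rfl⟩
      have h5 : s a0 d0 * s b0 d0 * s a0 d0 = s b0 d0 * s a0 d0 * s b0 d0 := by
        rw [map_mul, map_mul, map_mul, map_mul] at h4
        exact h4
      rw [← h1, ← h2, ← h3, ← he p _ _ g3, ← he p _ _ g2]
      calc j p * s a0 d0 * (j p)⁻¹ * (j p * s b0 d0 * (j p)⁻¹) * (j p * s a0 d0 * (j p)⁻¹)
          = j p * (s a0 d0 * s b0 d0 * s a0 d0) * (j p)⁻¹ := by group
        _ = j p * (s b0 d0 * s a0 d0 * s b0 d0) * (j p)⁻¹ := by rw [h5]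
        _ = _ := by group
    · intro a b d e h0 hab had hae hde
      obtain ⟨⟨a0, b0, d0, e0⟩, hu, p, h1, h2, h3, h3'⟩ := hT5 a b d e h0 hab had hae hde
      simp only at h1 h2 h3 h3'
      have g0 : a0 ≠ b0 := by rintro rfl; exact h0 (h1.symm.trans h2)
      have g1 : a0.2 = b0.2 := by rw [← h1, ← h2, hG.copy, hG.copy] at hab; exact hab
      have g3 : a0.2 ≠ d0.2 := by rw [← h1, ← h3, hG.copy, hG.copy] at had; exact had
      have g4 : a0.2 ≠ e0.2 := by rw [← h1, ← h3', hG.copy, hG.copy] at hae; exact hae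
      have g5 : d0.2 ≠ e0.2 := by rw [← h3, ← h3', hG.copy, hG.copy] at hde; exact hde
      have g2 : b0.2 ≠ d0.2 := g1 ▸ g3
      have h4 : k (w d0 e0 * (w a0 d0 * w b0 d0 * w a0 d0)) =
          k ((w a0 d0 * w b0 d0 * w a0 d0) * w d0 e0) := by
        apply hk
        right
        exact ⟨(a0, b0, d0, e0), ⟨hu, g0, g1, g3, g4, g5⟩, rfl⟩
      have h5 : s d0 e0 * (s a0 d0 * s b0 d0 * s a0 d0) =
          (s a0 d0 * s b0 d0 * s a0 d0) * s d0 e0 := by
        simp only [map_mul] at h4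
        exact h4
      rw [← h1, ← h2, ← h3, ← h3', ← he p _ _ g3, ← he p _ _ g2, ← he p _ _ g5]
      calc j p * s d0 e0 * (j p)⁻¹ * (j p * s a0 d0 * (j p)⁻¹ * (j p * s b0 d0 * (j p)⁻¹) *
            (j p * s a0 d0 * (j p)⁻¹))
          = j p * (s d0 e0 * (s a0 d0 * s b0 d0 * s a0 d0)) * (j p)⁻¹ := by group
        _ = j p * ((s a0 d0 * s b0 d0 * s a0 d0) * s d0 e0) * (j p)⁻¹ := by rw [h5]
        _ = _ := by group
  have hgen : Subgroup.closure (Set.range j ∪ {y | ∃ a b, a.2 ≠ b.2 ∧ y = s a b}) = ⊤ := by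
    rw [eq_top_iff]
    have hsurj : Function.Surjective k := QuotientGroup.mk'_surjective N
    have htop : (⊤ : Subgroup (Monoid.Coprod P (FreeGroup T) ⧸ N)) = Subgroup.map k ⊤ :=
      (Subgroup.map_top_of_surjective k hsurj).symm
    rw [htop, ← Monoid.Coprod.range_inl_sup_range_inr, Subgroup.map_sup]
    refine sup_le ?_ ?_
    · rintro _ ⟨_, ⟨p, rfl⟩, rfl⟩
      exact Subgroup.subset_closure (Or.inl ⟨p, rfl⟩)
    · rintro _ ⟨_, ⟨x, rfl⟩, rfl⟩
      have hx : x ∈ Subgroup.closure (Set.range (FreeGroup.of : T → FreeGroup T)) := by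
        rw [FreeGroup.closure_range_of]; trivial
      have key : Subgroup.closure (Set.range (FreeGroup.of : T → FreeGroup T)) ≤
          (Subgroup.closure (Set.range j ∪ {y | ∃ a b, a.2 ≠ b.2 ∧ y = s a b})).comap
            (k.comp Monoid.Coprod.inr) := by
        rw [Subgroup.closure_le]
        rintro _ ⟨t, rfl⟩
        rw [SetLike.mem_coe, Subgroup.mem_comap]
        refine Subgroup.subset_closure (Or.inr ⟨t.1.1, t.1.2, hT t.1 t.2, ?_⟩)
        exact (hst t).symm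
      exact key hx
  have hinj : Function.Injective q := by
    refine q_injective hpre j q π hG.copy ?_ ?_ he hgen hG.nf
    · intro p
      change q (k (Monoid.Coprod.inl p)) = π p
      rw [hqk, qE_inl]
    · intro a b hab
      change q (k (w a b)) = swap a b
      rw [hqk, qw a b hab]
  refine ⟨R, hRf, le_antisymm hNker ?_⟩
  intro x hx
  have h1 : q (k x) = q 1 := by
    rw [hqk, map_one]; exact hx
  exact (QuotientGroup.eq_one_iff x).1 (hinj h1)

end

end Pool.Agent.TH107.BH
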