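import Pool.Agent.TH107.BH.Three

set_option autoImplicit false

/-!
Injectivity of the action on three copies.
-/

namespace Pool.Agent.TH107.BH

open Equiv

universe u v w

section
variable {Q : Type u} {X : Type v} {P : Type w} [Group Q] [Group P] [DecidableEq X]
  {s : X × Fin 3 → X × Fin 3 → Q} (h : Pre s) (j : P →* Q) (q : Q →* Perm (X × Fin 3))
  (π : P →* Perm (X × Fin 3)) (hπ : ∀ p z, (π p z).2 = z.2)
  (hj : ∀ p, q (j p) = π p)
  (hs : ∀ a b, a.2 ≠ b.2 → q (s a b) = swap a b)
  (he : ∀ p a b, a.2 ≠ b.2 → j p * s a b * (j p)⁻¹ = s (π p a) (π p b))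

include h hπ he in
theorem full_equiv (p : P) (a b : X × Fin 3) (hab : a ≠ b) :
    j p * full s a b * (j p)⁻¹ = full s (π p a) (π p b) := by
  by_cases h2 : a.2 = b.2
  · set c : X × Fin 3 := (a.1, a.2 + 1) with hc
    have hac : a.2 ≠ c.2 := next_ne _
    rw [h.full_same hab h2 hac,
      h.full_same (c := π p c) (fun e => hab ((π p).injective e)) (by rw [hπ, hπ]; exact h2)
      (by rw [hπ, hπ]; exact hac)]
    unfold sig
    rw [← he p a c hac, ← he p b c (h2 ▸ hac)]
    group
  · rw [full_ne h2, full_ne (by rw [hπ, hπ]; exact h2), he p a b h2]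

include h hs in
theorem q_full (a b : X × Fin 3) (hab : a ≠ b) : q (full s a b) = swap a b := by
  by_cases h2 : a.2 = b.2
  · set c : X × Fin 3 := (a.1, a.2 + 1) with hc
    have hac : a.2 ≠ c.2 := next_ne _
    rw [h.full_same hab h2 hac]
    unfold sig
    rw [map_mul, map_mul, hs a c hac, hs b c (h2 ▸ hac)]
    have hbc' : b ≠ c := fun e => hac (h2.trans (congrArg Prod.snd e))
    rw [swap_comm a c]
    exact swap_mul_swap_mul_swap hbc' hab.symm
  · rw [full_ne h2, hs a b h2]

include h hπ hj hs he in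
theorem q_injective
    (hgen : Subgroup.closure (Set.range j ∪ {y | ∃ a b, a.2 ≠ b.2 ∧ y = s a b}) = ⊤)
    (hNF : ∀ p, {z | π p z ≠ z}.Finite → p = 1) : Function.Injective q := by
  set S : Set Q := {y | ∃ a b : X × Fin 3, a ≠ b ∧ y = full s a b} with hS
  set N := Subgroup.closure S with hN
  have hnorm : N.Normal := by
    rw [← Subgroup.normalizer_eq_top_iff, eq_top_iff, ← hgen, Subgroup.closure_le]
    rintro y (⟨p, rfl⟩ | ⟨a, b, hab, rfl⟩)
    · apply Subgroup.normalizer_le_normalizer_closure S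
      rw [Subgroup.mem_set_normalizer_iff]
      intro y
      constructor
      · rintro ⟨a, b, hab, rfl⟩
        exact ⟨π p a, π p b, fun e => hab ((π p).injective e), full_equiv h j π hπ he p a b hab⟩
      · rintro ⟨a, b, hab, hy⟩
        refine ⟨π p⁻¹ a, π p⁻¹ b, fun e => hab ((π p⁻¹).injective e), ?_⟩
        rw [← full_equiv h j π hπ he p⁻¹ a b hab, ← hy, map_inv]
        group
    · apply Subgroup.le_normalizer
      refine Subgroup.subset_closure ⟨a, b, fun e => hab (congrArg Prod.snd e), ?_⟩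
      rw [full_ne hab]
  have hfin : ∀ x ∈ N, {z | q x z ≠ z}.Finite := by
    intro x hx
    obtain ⟨D, hD⟩ := exists_cl (full s) x hx
    refine (Finset.finite_toSet D).subset ?_
    intro z hz
    by_contra hzD
    exact hz (fix_cl (full s) q (q_full h q hs) D z hzD x hD)
  rw [injective_iff_map_eq_one]
  intro x hx
  have hx2 : x ∈ N ⊔ j.range := by
    have : (⊤ : Subgroup Q) ≤ N ⊔ j.range := by
      rw [← hgen, Subgroup.closure_le]
      rintro y (⟨p, rfl⟩ | ⟨a, b, hab, rfl⟩)
      · exact Subgroup.mem_sup_right ⟨p, rfl⟩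
      · refine Subgroup.mem_sup_left (Subgroup.subset_closure
          ⟨a, b, fun e => hab (congrArg Prod.snd e), ?_⟩)
        rw [full_ne hab]
    exact this (Subgroup.mem_top x)
  obtain ⟨y, hy, _, ⟨p, rfl⟩, rfl⟩ := Subgroup.mem_sup_of_normal_left.1 hx2
  rw [map_mul, hj] at hx
  have hp : p⁻¹ = 1 := by
    apply hNF
    have e : π p⁻¹ = q y := by
      rw [map_inv]
      exact (eq_inv_of_mul_eq_one_left hx).symm
    rw [e]
    exact hfin y hy
  have hp1 : p = 1 := inv_eq_one.1 hp
  subst hp1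
  rw [map_one, mul_one] at hx
  rw [map_one, mul_one]
  exact h.full_Tr.inj q (q_full h q hs) y hy hx

end

end Pool.Agent.TH107.BH
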