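import Mathlib

set_option autoImplicit false

/-!
Groups containing all finitary permutations: high transitivity and stabilizers of finite sets.
-/

namespace Pool.Agent.TH107.BH

open Equiv

universe u v w

section
variable {Z : Type v} [DecidableEq Z]

omit [DecidableEq Z] in
theorem iis (f : Perm Z) (x : Z) : f⁻¹ (f x) = x := by simp

omit [DecidableEq Z] in
theorem ais (f : Perm Z) (x : Z) : f (f⁻¹ x) = x := by simp

/-- the subgroup generated by all swaps -/
def Sw (Z : Type v) [DecidableEq Z] : Subgroup (Perm Z) := Subgroup.closure {σ | σ.IsSwap}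

theorem swap_mem_Sw (a b : Z) : swap a b ∈ Sw Z := by
  by_cases h : a = b
  · subst h; rw [swap_self]; exact Subgroup.one_mem _
  · exact Subgroup.subset_closure ⟨a, b, h, rfl⟩

theorem mem_Sw_iff {f : Perm Z} : f ∈ Sw Z ↔ {z | f z ≠ z}.Finite := by
  have := mem_closure_isSwap' (f := f)
  exact this

instance Sw_normal : (Sw Z).Normal := by
  constructor
  intro f hf g
  rw [mem_Sw_iff] at hf ⊢
  refine (hf.image g).subset ?_
  intro z hz
  refine ⟨g⁻¹ z, ?_, by simp⟩
  intro h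
  apply hz
  rw [Perm.mul_apply, Perm.mul_apply, h]
  simp

/-- two families with the same equalities are related by a finitary permutation -/
theorem ht {ι : Type w} [DecidableEq ι] (x y : ι → Z) (hxy : ∀ i j, x i = x j ↔ y i = y j)
    (I : Finset ι) : ∃ φ ∈ Sw Z, ∀ i ∈ I, φ (x i) = y i := by
  induction I using Finset.induction_on with
  | empty => exact ⟨1, Subgroup.one_mem _, by simp⟩
  | insert i0 I _ ih =>
    obtain ⟨φ, hφ, h⟩ := ih
    by_cases hex : ∃ i ∈ I, x i = x i0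
    · obtain ⟨i, hi, hxi⟩ := hex
      refine ⟨φ, hφ, ?_⟩
      intro k hk
      rcases Finset.mem_insert.1 hk with rfl | hk
      · rw [← hxi, h i hi]
        exact (hxy i k).1 hxi
      · exact h k hk
    · push Not at hex
      refine ⟨swap (φ (x i0)) (y i0) * φ, Subgroup.mul_mem _ (swap_mem_Sw _ _) hφ, ?_⟩
      intro k hk
      rcases Finset.mem_insert.1 hk with rfl | hk
      · rw [Perm.mul_apply, swap_apply_left]
      · rw [Perm.mul_apply, h k hk]
        apply swap_apply_of_ne_of_ne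
        · intro e
          rw [← h k hk] at e
          exact hex k hk (φ.injective e)
        · intro e
          exact hex k hk ((hxy k i0).2 e)

/-- the elements of `Γ` fixing all points of `F` -/
def fixer (Γ : Subgroup (Perm Z)) (F : Set Z) : Subgroup (Perm Z) where
  carrier := {γ | γ ∈ Γ ∧ ∀ a ∈ F, γ a = a}
  one_mem' := ⟨Subgroup.one_mem _, fun _ _ => rfl⟩
  mul_mem' := by
    rintro f g ⟨hf, hf'⟩ ⟨hg, hg'⟩
    exact ⟨Subgroup.mul_mem _ hf hg, fun a ha => by rw [Perm.mul_apply, hg' a ha, hf' a ha]⟩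
  inv_mem' := by
    rintro f ⟨hf, hf'⟩
    exact ⟨Subgroup.inv_mem _ hf, fun a ha => by rw [Perm.inv_eq_iff_eq, hf' a ha]⟩

theorem mem_fixer {Γ : Subgroup (Perm Z)} {F : Set Z} {γ : Perm Z} :
    γ ∈ fixer Γ F ↔ γ ∈ Γ ∧ ∀ a ∈ F, γ a = a := Iff.rfl

theorem fixer_fg [Infinite Z] (Γ : Subgroup (Perm Z)) (S : Set (Perm Z)) (hSf : S.Finite)
    (hSΓ : S ⊆ Γ) (hsw : Sw Z ≤ Γ) (hΓ : Γ ≤ Sw Z ⊔ Subgroup.closure S) (O : Set Z)
    (hOf : O.Finite) (hO : ∀ z, ∃ g ∈ Subgroup.closure S, g z ∈ O) (F : Set Z) (hF : F.Finite) :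
    (fixer Γ F).FG := by
  classical
  obtain ⟨z0, hz0⟩ : ∃ z0, z0 ∉ F := by
    by_contra h
    push Not at h
    exact Set.infinite_univ (hF.subset fun z _ => h z)
  -- corrections
  have hcor : ∀ s : Perm Z, ∃ φ ∈ Sw Z, ∀ a ∈ F, φ (s a) = a := by
    intro s
    obtain ⟨φ, h1, h2⟩ := ht (fun z : Z => s z) (fun z : Z => z) (fun i j => s.injective.eq_iff)
      hF.toFinset
    exact ⟨φ, h1, fun a ha => h2 a (hF.mem_toFinset.2 ha)⟩
  choose cor hcor1 hcor2 using hcor
  let t : Perm Z → Perm Z := fun s => cor s * s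
  let Bad : Set Z := F ∪ ⋃ s ∈ S, ({z | t s z ≠ s z} ∪ {z | (t s)⁻¹ z ≠ s⁻¹ z})
  have hBad : Bad.Finite := by
    refine hF.union (hSf.biUnion fun s _ => Set.Finite.union ?_ ?_)
    · refine ((mem_Sw_iff.1 (hcor1 s)).image (fun z => s⁻¹ z)).subset ?_
      intro z hz
      refine ⟨s z, hz, by simp⟩
    · refine (mem_Sw_iff.1 (hcor1 s)).subset ?_
      intro z hz h
      apply hz
      change (cor s * s)⁻¹ z = s⁻¹ z
      rw [mul_inv_rev, Perm.mul_apply]
      congr 1
      rw [Perm.inv_eq_iff_eq, h]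
  let D : Set Z := ((Bad ∪ O) \ F) ∪ {z0} ∪ (⋃ s ∈ S, {t s z0, (t s)⁻¹ z0})
  have hDf : D.Finite := by
    refine Set.Finite.union (Set.Finite.union ((hBad.union hOf).subset Set.diff_subset)
      (Set.finite_singleton _)) (hSf.biUnion fun s _ => ?_)
    exact Set.toFinite _
  have htfix : ∀ s, ∀ a ∈ F, t s a = a := fun s a ha => hcor2 s a ha
  have htfix' : ∀ s, ∀ a ∈ F, (t s)⁻¹ a = a := fun s a ha => by
    rw [Perm.inv_eq_iff_eq, htfix s a ha]
  have hDF : ∀ z ∈ D, z ∉ F := by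
    rintro z ((hz | hz) | hz)
    · exact hz.2
    · rw [Set.mem_singleton_iff] at hz
      rw [hz]; exact hz0
    · simp only [Set.mem_iUnion] at hz
      obtain ⟨s, _, hz⟩ := hz
      intro hzF
      rcases hz with hz | hz
      · have h1 := htfix' s z hzF
        rw [hz] at h1
        simp only [iis] at h1
        rw [hz, ← h1] at hzF
        exact hz0 hzF
      · rw [Set.mem_singleton_iff] at hz
        have h1 := htfix s z hzF
        rw [hz] at h1
        simp only [ais] at h1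
        rw [hz, ← h1] at hzF
        exact hz0 hzF
  let G : Set (Perm Z) := (t '' S) ∪ (fun u : Z × Z => swap u.1 u.2) '' (D ×ˢ D)
  have hGf : G.Finite := (hSf.image _).union ((hDf.prod hDf).image _)
  set L := Subgroup.closure G with hL
  have hLle : L ≤ fixer Γ F := by
    rw [hL, Subgroup.closure_le]
    rintro _ (⟨s, hs, rfl⟩ | ⟨⟨a, b⟩, ⟨ha, hb⟩, rfl⟩)
    · exact ⟨Subgroup.mul_mem _ (hsw (hcor1 s)) (hSΓ hs), htfix s⟩
    · refine ⟨hsw (swap_mem_Sw _ _), fun c hc => ?_⟩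
      apply swap_apply_of_ne_of_ne
      · rintro rfl; exact hDF _ ha hc
      · rintro rfl; exact hDF _ hb hc
  have hLF : ∀ g ∈ L, ∀ z, z ∉ F → g z ∉ F := by
    intro g hg z hz h
    have h1 := (hLle hg).2 _ h
    rw [g.injective h1] at h
    exact hz h
  let B : Set Z := {z | z ∉ F ∧ swap z0 z ∈ L}
  have hDB : D ⊆ B := by
    intro z hz
    refine ⟨hDF z hz, Subgroup.subset_closure (Or.inr ⟨(z0, z), ⟨?_, hz⟩, rfl⟩)⟩
    exact Or.inl (Or.inr rfl)
  have hstep : ∀ u v, swap z0 u ∈ L → swap u v ∈ L → swap z0 v ∈ L := by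
    intro u v hu hv
    by_cases h1 : v = z0
    · subst h1; rw [swap_self]; exact Subgroup.one_mem _
    · by_cases h2 : v = u
      · subst h2; exact hu
      · have h3 := Subgroup.mul_mem _ (Subgroup.mul_mem _ hu hv) (Subgroup.inv_mem _ hu)
        rw [← swap_apply_apply, swap_apply_right, swap_apply_of_ne_of_ne h1 h2] at h3
        exact h3
  have hBinv : ∀ g ∈ L, g z0 ∈ B → ∀ z ∈ B, g z ∈ B := by
    intro g hg h0 z hz
    refine ⟨hLF g hg z hz.1, hstep (g z0) (g z) h0.2 ?_⟩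
    rw [swap_apply_apply]
    exact Subgroup.mul_mem _ (Subgroup.mul_mem _ hg hz.2) (Subgroup.inv_mem _ hg)
  have hBt : ∀ s ∈ S, ∀ z ∈ B, t s z ∈ B ∧ (t s)⁻¹ z ∈ B := by
    intro s hs z hz
    have hts : t s ∈ L := Subgroup.subset_closure (Or.inl ⟨s, hs, rfl⟩)
    constructor
    · refine hBinv _ hts (hDB (Or.inr ?_)) z hz
      exact Set.mem_biUnion hs (Or.inl rfl)
    · refine hBinv _ (Subgroup.inv_mem _ hts) (hDB (Or.inr ?_)) z hz
      exact Set.mem_biUnion hs (Or.inr rfl)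
  have hM : ∀ g ∈ Subgroup.closure S, ∀ z, (z ∉ F ∧ z ∉ B) →
      (g z ∉ F ∧ g z ∉ B) ∧ (g⁻¹ z ∉ F ∧ g⁻¹ z ∉ B) := by
    intro g hg
    induction hg using Subgroup.closure_induction with
    | mem s hs =>
      rintro z ⟨hz1, hz2⟩
      have hzBad : z ∉ Bad := fun h => hz2 (hDB (Or.inl (Or.inl ⟨Or.inl h, hz1⟩)))
      have e1 : t s z = s z := by
        by_contra h
        exact hzBad (Or.inr (Set.mem_biUnion hs (Or.inl h)))
      have e2 : (t s)⁻¹ z = s⁻¹ z := by
        by_contra h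
        exact hzBad (Or.inr (Set.mem_biUnion hs (Or.inr h)))
      have hts : t s ∈ L := Subgroup.subset_closure (Or.inl ⟨s, hs, rfl⟩)
      rw [← e1, ← e2]
      refine ⟨⟨hLF _ hts z hz1, fun h => hz2 ?_⟩,
        ⟨hLF _ (Subgroup.inv_mem _ hts) z hz1, fun h => hz2 ?_⟩⟩
      · have := (hBt s hs _ h).2
        rwa [iis] at this
      · have := (hBt s hs _ h).1
        rwa [ais] at this
    | one => intro z hz; simpa using hz
    | mul f g _ _ ihf ihg =>
      intro z hz
      refine ⟨?_, ?_⟩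
      · rw [Perm.mul_apply]
        exact (ihf _ (ihg z hz).1).1
      · rw [mul_inv_rev, Perm.mul_apply]
        exact (ihg _ (ihf z hz).2).2
    | inv f _ ih =>
      intro z hz
      rw [inv_inv]
      exact ⟨(ih z hz).2, (ih z hz).1⟩
  have hB : ∀ z, z ∉ F → z ∈ B := by
    intro z hz
    by_contra hzB
    obtain ⟨g, hg, hgz⟩ := hO z
    have h1 := (hM g hg z ⟨hz, hzB⟩).1
    exact h1.2 (hDB (Or.inl (Or.inl ⟨Or.inr hgz, h1.1⟩)))
  have hswL : ∀ a b, a ∉ F → b ∉ F → swap a b ∈ L := by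
    intro a b ha hb
    by_cases h1 : b = z0
    · subst h1
      rw [swap_comm]
      exact (hB a ha).2
    · by_cases h2 : b = a
      · subst h2; rw [swap_self]; exact Subgroup.one_mem _
      · have h3 := Subgroup.mul_mem _ (Subgroup.mul_mem _ (hB a ha).2 (hB b hb).2)
          (Subgroup.inv_mem _ (hB a ha).2)
        rw [← swap_apply_apply, swap_apply_left, swap_apply_of_ne_of_ne h1 h2] at h3
        exact h3
  have hfinL : ∀ φ ∈ Sw Z, (∀ a ∈ F, φ a = a) → φ ∈ L := by
    intro φ hφ hφF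
    have hcl : Subgroup.closure {σ : Perm Z | ∃ a b, a ≠ b ∧ a ∉ F ∧ b ∉ F ∧ σ = swap a b} ≤ L := by
      rw [Subgroup.closure_le]
      rintro _ ⟨a, b, _, ha, hb, rfl⟩
      exact hswL a b ha hb
    apply hcl
    rw [mem_closure_isSwap]
    · refine ⟨mem_Sw_iff.1 hφ, fun x => ?_⟩
      by_cases hx : φ x = x
      · rw [hx]; exact MulAction.mem_orbit_self x
      · have hxF : x ∉ F := fun h => hx (hφF x h)
        have hxF' : φ x ∉ F := by
          intro h
          exact hx (φ.injective (hφF _ h))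
        refine ⟨⟨swap x (φ x), Subgroup.subset_closure ⟨x, φ x, Ne.symm hx, hxF, hxF', rfl⟩⟩, ?_⟩
        exact swap_apply_left x (φ x)
    · rintro _ ⟨a, b, hab, _, _, rfl⟩
      exact ⟨a, b, hab, rfl⟩
  have hfinal : fixer Γ F = L := by
    refine le_antisymm ?_ hLle
    intro γ hγ
    have h1 : γ ∈ Sw Z ⊔ L := by
      refine (hΓ.trans (sup_le le_sup_left ?_)) hγ.1
      rw [Subgroup.closure_le]
      intro s hs
      have e : s = (cor s)⁻¹ * t s := by
        change s = (cor s)⁻¹ * (cor s * s)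
        group
      rw [e]
      exact Subgroup.mul_mem _ (Subgroup.mem_sup_left (Subgroup.inv_mem _ (hcor1 s)))
        (Subgroup.mem_sup_right (Subgroup.subset_closure (Or.inl ⟨s, hs, rfl⟩)))
    obtain ⟨φ, hφ, ℓ, hℓ, rfl⟩ := Subgroup.mem_sup_of_normal_left.1 h1
    refine Subgroup.mul_mem _ (hfinL φ hφ ?_) hℓ
    intro a ha
    have h2 := hγ.2 a ha
    rwa [Perm.mul_apply, (hLle hℓ).2 a ha] at h2
  rw [hfinal, Subgroup.fg_iff]
  exact ⟨G, rfl, hGf⟩

end

end Pool.Agent.TH107.BH
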