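import Pool.Agent.TH107.BH.TypeA
import Pool.Agent.TH107.BH.Stab

set_option autoImplicit false

/-!
From actions with finitely many orbits of pairs and finitely generated point stabilizers to highly
transitive actions with finitely generated stabilizers of finite sets.
-/

namespace Pool.Agent.TH107.BH

open Equiv

theorem fp_countable {G : Type*} [Group G] [h : Group.IsFinitelyPresented G] : Countable G := by
  obtain ⟨n, φ, hφ, _⟩ := h.out
  exact hφ.countable

theorem comap_fg {A B : Type*} [Group A] [Group B] (f : A →* B) (hf : Function.Injective f)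
    (K : Subgroup B) (hK : K ≤ f.range) (hfg : K.FG) : (K.comap f).FG := by
  obtain ⟨S, hS, hSf⟩ := (Subgroup.fg_iff _).1 hfg
  have h1 : f '' (f ⁻¹' S) = S := by
    rw [Set.image_preimage_eq_iff]
    intro s hs
    exact hK (hS ▸ Subgroup.subset_closure hs)
  rw [Subgroup.fg_iff]
  refine ⟨f ⁻¹' S, ?_, hSf.preimage hf.injOn⟩
  rw [← hS, ← h1, ← MonoidHom.map_closure, Subgroup.comap_map_eq_self_of_injective hf, h1]

/-- the main construction -/
theorem main {G : Type} [Group G] {X : Type} (ρ : G →* Perm X) [Group.IsFinitelyPresented G]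
    [Infinite X] (hρ : Function.Injective ρ) (hA : TypeA ρ) :
    ∃ (Γ : Type) (_ : Group Γ) (φ : G →* Γ) (σ : Γ →* Perm ℕ), Group.IsFinitelyPresented Γ ∧
      Function.Injective φ ∧ Function.Injective σ ∧ (∀ a b : ℕ, swap a b ∈ σ.range) ∧
      (∀ (k : ℕ) (x y : Fin k → ℕ), Function.Injective x → Function.Injective y →
        ∃ g : Γ, ∀ i, σ g (x i) = y i) ∧
      ∀ F : Finset ℕ, ((⨅ a ∈ F, MulAction.stabilizer (Perm ℕ) a).comap σ).FG := by
  classical
  haveI i1 : Group.IsFinitelyPresented (G × G) := fp_prod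
  haveI i2 : Group.IsFinitelyPresented (Fin 3 → G × G) := fp_three
  have hgood : Good (tri (sqr ρ)) := tri_good fp_fg hA.sqr (sqr_nf hρ)
  set π := tri (sqr ρ) with hπ
  obtain ⟨T, hTf, hT, hTc⟩ := hgood.orb2
  haveI : Finite T := hTf
  haveI i3 : Group.IsFinitelyPresented (Monoid.Coprod (Fin 3 → G × G) (FreeGroup T)) :=
    inferInstance
  let Γ : Subgroup (Perm ((X × X) × Fin 3)) := (qE π T).range
  have hΓfp : Group.IsFinitelyPresented Γ := by
    refine Group.IsFinitelyPresented.of_surjective (qE π T).rangeRestrict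
      (qE π T).rangeRestrict_surjective ?_
    rw [MonoidHom.ker_rangeRestrict]
    exact ker_fng hgood T hTf hT hTc
  have hπΓ : ∀ p, π p ∈ Γ := fun p => ⟨Monoid.Coprod.inl p, qE_inl π T p⟩
  have hsw1 : ∀ a b : (X × X) × Fin 3, a.2 ≠ b.2 → swap a b ∈ Γ := by
    intro a b hab
    obtain ⟨t, ht, p, h1, h2⟩ := hTc a b hab
    refine ⟨W p ⟨t, ht⟩, ?_⟩
    rw [qE_W, h1, h2]
  have hsw : Sw ((X × X) × Fin 3) ≤ Γ := by
    unfold Sw
    rw [Subgroup.closure_le]
    rintro _ ⟨a, b, hab, rfl⟩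
    by_cases h : a.2 = b.2
    · obtain ⟨k, hk, hk'⟩ := fin3 a.2 b.2
      have e := swap_mul_swap_mul_swap (x := b) (y := ((a.1, k) : (X × X) × Fin 3)) (z := a)
        (fun e => hk' (congrArg Prod.snd e)) (Ne.symm hab)
      rw [SetLike.mem_coe, ← e]
      refine Subgroup.mul_mem _ (Subgroup.mul_mem _ (hsw1 _ _ (Ne.symm hk)) (hsw1 _ _ hk'))
        (hsw1 _ _ (Ne.symm hk))
    · exact hsw1 a b h
  obtain ⟨S, hS, hSf⟩ := Group.fg_iff.1 (fp_fg (G := Fin 3 → G × G))
  have hcl : Subgroup.closure (π '' S) = π.range := by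
    rw [← MonoidHom.map_closure, hS, MonoidHom.range_eq_map]
  have hΓle : Γ ≤ Sw ((X × X) × Fin 3) ⊔ Subgroup.closure (π '' S) := by
    change (qE π T).range ≤ _
    unfold qE
    rw [Monoid.Coprod.range_lift, hcl]
    refine sup_le le_sup_right (le_trans ?_ le_sup_left)
    rw [FreeGroup.range_lift_eq_closure, Subgroup.closure_le]
    rintro _ ⟨t, rfl⟩
    exact swap_mem_Sw _ _
  have hO : ∀ z, ∃ g ∈ Subgroup.closure (π '' S), g z ∈ Prod.fst '' T := by
    intro z
    obtain ⟨k, hk, _⟩ := fin3 z.2 z.2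
    obtain ⟨t, ht, p, h1, _⟩ := hTc z (z.1, k) hk
    refine ⟨(π p)⁻¹, ?_, ⟨t, ht, ?_⟩⟩
    · rw [hcl]; exact Subgroup.inv_mem _ ⟨p, rfl⟩
    · rw [eq_comm, Perm.inv_eq_iff_eq, h1]
  have hfix : ∀ F : Set ((X × X) × Fin 3), F.Finite → (fixer Γ F).FG := by
    intro F hF
    refine fixer_fg Γ (π '' S) (hSf.image _) ?_ hsw hΓle (Prod.fst '' T) (hTf.image _) hO F hF
    rintro _ ⟨p, _, rfl⟩
    exact hπΓ p
  have hcount : Countable ((X × X) × Fin 3) := by
    haveI : Countable (Fin 3 → G × G) := fp_countable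
    have : Function.Surjective
        (fun u : (Fin 3 → G × G) × T => π u.1 u.2.1.1) := by
      intro z
      obtain ⟨k, hk, _⟩ := fin3 z.2 z.2
      obtain ⟨t, ht, p, h1, _⟩ := hTc z (z.1, k) hk
      exact ⟨(p, ⟨t, ht⟩), h1⟩
    exact this.countable
  obtain ⟨hden⟩ := nonempty_denumerable ((X × X) × Fin 3)
  let e : (X × X) × Fin 3 ≃ ℕ := Denumerable.eqv _
  let σ : Γ →* Perm ℕ := (Equiv.permCongrHom e).toMonoidHom.comp Γ.subtype
  have hσ : ∀ (γ : Γ) (n : ℕ), σ γ n = e (γ.1 (e.symm n)) := fun γ n => rfl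
  let φ : G →* Γ := (π.comp (Pi.monoidHom fun _ => MonoidHom.inl G G)).codRestrict Γ
    (fun g => hπΓ _)
  have hφ : ∀ g z, (φ g).1 z = ((ρ g z.1.1, z.1.2), z.2) := by
    intro g z
    change π (fun _ => (g, 1)) z = _
    rw [hπ, tri_apply, sqr_apply, map_one]
    rfl
  refine ⟨Γ, inferInstance, φ, σ, hΓfp, ?_, ?_, ?_, ?_, ?_⟩
  · intro g h hgh
    apply hρ
    ext x
    have h1 := hφ g ((x, x), 0)
    rw [hgh, hφ] at h1
    exact (congrArg (fun z : (X × X) × Fin 3 => z.1.1) h1).symm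
  · intro g h hgh
    apply Subtype.ext
    ext1 z
    have h1 := congrArg (fun f : Perm ℕ => f (e z)) hgh
    simp only [hσ, Equiv.symm_apply_apply] at h1
    exact e.injective h1
  · intro a b
    refine ⟨⟨swap (e.symm a) (e.symm b), hsw (swap_mem_Sw _ _)⟩, ?_⟩
    change e.permCongr (swap (e.symm a) (e.symm b)) = swap a b
    rw [Equiv.permCongr_def, Equiv.symm_trans_swap_trans, Equiv.apply_symm_apply,
      Equiv.apply_symm_apply]
  · intro k x y hx hy
    obtain ⟨f, hf, h⟩ := ht (fun i => e.symm (x i)) (fun i => e.symm (y i))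
      (fun i j => by rw [e.symm.injective.eq_iff, e.symm.injective.eq_iff, hx.eq_iff, hy.eq_iff])
      Finset.univ
    refine ⟨⟨f, hsw hf⟩, fun i => ?_⟩
    rw [hσ]
    simp only
    rw [h i (Finset.mem_univ i), Equiv.apply_symm_apply]
  · intro F
    have h1 : (⨅ a ∈ F, MulAction.stabilizer (Perm ℕ) a).comap σ =
        (fixer Γ (e.symm '' (F : Set ℕ))).comap Γ.subtype := by
      ext γ
      rw [Subgroup.mem_comap, Subgroup.mem_comap, mem_fixer]
      simp only [Subgroup.mem_iInf, MulAction.mem_stabilizer_iff, Perm.smul_def]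
      constructor
      · intro h
        refine ⟨γ.2, ?_⟩
        rintro _ ⟨a, ha, rfl⟩
        have := h a ha
        rw [hσ] at this
        exact e.injective (by rw [Equiv.apply_symm_apply]; exact this)
      · rintro ⟨_, h⟩ a ha
        rw [hσ]
        have := h _ ⟨a, ha, rfl⟩
        change e ((Γ.subtype γ) (e.symm a)) = a
        rw [this, Equiv.apply_symm_apply]
    rw [h1]
    refine comap_fg _ (Subgroup.subtype_injective _) _ ?_ (hfix _ ((Finset.finite_toSet F).image _))
    rw [Subgroup.range_subtype]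
    exact fun x hx => hx.1

end Pool.Agent.TH107.BH
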