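import Mathlib

set_option autoImplicit false

/-!
Presentation of the finitary symmetric group by all transpositions and the relations of triples.
-/

namespace Pool.Agent.TH107.BH

open Equiv

universe u v

/-- a family of involutions indexed by pairs with the relations of triples -/
structure Tr {Q : Type u} {Z : Type v} [Group Q] (t : Z → Z → Q) : Prop where
  symm : ∀ a b, a ≠ b → t a b = t b a
  sq : ∀ a b, a ≠ b → t a b * t a b = 1
  tri : ∀ a b c, a ≠ b → b ≠ c → a ≠ c → t a b * t b c * t a b = t a c

section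
variable {Q : Type u} {Z : Type v} [Group Q]

/-- the computation with four points -/
theorem four_points {ab bc cd ac bd ad : Q} (h1 : ab * ab = 1) (h2 : bc * bc = 1)
    (e1 : ab * bd * ab = ad) (e2 : bc * cd * bc = bd)
    (e3 : ac * cd * ac = ad) (e4 : ab * bc * ab = ac) : ab * cd = cd * ab := by
  have k : ab * (bc * cd * bc) * ab = (ab * bc * ab) * cd * (ab * bc * ab) := by
    rw [e2, e1, e4, e3]
  have k1 : ab * bc * (cd) * (bc * ab) = ab * bc * (ab * cd * ab) * (bc * ab) := by
    calc ab * bc * (cd) * (bc * ab) = ab * (bc * cd * bc) * ab := by group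
      _ = (ab * bc * ab) * cd * (ab * bc * ab) := k
      _ = ab * bc * (ab * cd * ab) * (bc * ab) := by group
  have k2 : cd = ab * cd * ab := mul_left_cancel (mul_right_cancel k1)
  calc ab * cd = ab * (ab * cd * ab) := by rw [← k2]
    _ = (ab * ab) * cd * ab := by group
    _ = cd * ab := by rw [h1, one_mul]

theorem Tr.comm {t : Z → Z → Q} (h : Tr t) {a b c d : Z} (hab : a ≠ b) (hac : a ≠ c) (had : a ≠ d)
    (hbc : b ≠ c) (hbd : b ≠ d) (hcd : c ≠ d) : t a b * t c d = t c d * t a b :=
  four_points (h.sq a b hab) (h.sq b c hbc) (h.tri a b d hab hbd had) (h.tri b c d hbc hcd hbd)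
    (h.tri a c d hac hcd had) (h.tri a b c hab hbc hac)

/-- the subgroup generated by the transpositions of a finite set -/
def cl (t : Z → Z → Q) (D : Finset Z) : Subgroup Q :=
  Subgroup.closure {y | ∃ a ∈ D, ∃ b ∈ D, a ≠ b ∧ y = t a b}

theorem cl_mono (t : Z → Z → Q) {D D' : Finset Z} (h : D ⊆ D') : cl t D ≤ cl t D' := by
  apply Subgroup.closure_mono
  rintro y ⟨a, ha, b, hb, hab, rfl⟩
  exact ⟨a, h ha, b, h hb, hab, rfl⟩

theorem exists_cl [DecidableEq Z] (t : Z → Z → Q) (x : Q)
    (hx : x ∈ Subgroup.closure {y | ∃ a b, a ≠ b ∧ y = t a b}) : ∃ D : Finset Z, x ∈ cl t D := by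
  induction hx using Subgroup.closure_induction with
  | mem x hx =>
    obtain ⟨a, b, hab, rfl⟩ := hx
    exact ⟨{a, b}, Subgroup.subset_closure ⟨a, by simp, b, by simp, hab, rfl⟩⟩
  | one => exact ⟨∅, Subgroup.one_mem _⟩
  | mul x y _ _ ihx ihy =>
    obtain ⟨D, hD⟩ := ihx
    obtain ⟨D', hD'⟩ := ihy
    exact ⟨D ∪ D', Subgroup.mul_mem _ (cl_mono t Finset.subset_union_left hD)
      (cl_mono t Finset.subset_union_right hD')⟩
  | inv x _ ih =>
    obtain ⟨D, hD⟩ := ih
    exact ⟨D, Subgroup.inv_mem _ hD⟩

variable [DecidableEq Z]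

theorem fix_cl (t : Z → Z → Q) (q : Q →* Perm Z) (hq : ∀ a b, a ≠ b → q (t a b) = swap a b)
    (D : Finset Z) (z : Z) (hz : z ∉ D) (x : Q) (hx : x ∈ cl t D) : q x z = z := by
  induction hx using Subgroup.closure_induction with
  | mem x hx =>
    obtain ⟨a, ha, b, hb, hab, rfl⟩ := hx
    rw [hq a b hab]
    exact swap_apply_of_ne_of_ne (fun h => hz (h ▸ ha)) (fun h => hz (h ▸ hb))
  | one => simp
  | mul x y _ _ ihx ihy => rw [map_mul, Perm.mul_apply, ihy, ihx]
  | inv x _ ih => rw [map_inv, Perm.inv_eq_iff_eq, ih]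

theorem split_cl {t : Z → Z → Q} (h : Tr t) (D : Finset Z) (z : Z) (hz : z ∉ D) (x : Q)
    (hx : x ∈ cl t (insert z D)) : x ∈ cl t D ∨ ∃ y ∈ D, ∃ v ∈ cl t D, x = t z y * v := by
  have step : ∀ a ∈ insert z D, ∀ b ∈ insert z D, a ≠ b → ∀ x : Q,
      (x ∈ cl t D ∨ ∃ y ∈ D, ∃ v ∈ cl t D, x = t z y * v) →
      (t a b * x ∈ cl t D ∨ ∃ y ∈ D, ∃ v ∈ cl t D, t a b * x = t z y * v) := by
    have mem : ∀ a ∈ D, ∀ b ∈ D, a ≠ b → t a b ∈ cl t D := fun a ha b hb hab =>
      Subgroup.subset_closure ⟨a, ha, b, hb, hab, rfl⟩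
    have hne : ∀ y ∈ D, z ≠ y := fun y hy h => hz (h ▸ hy)
    -- the case of the new point
    have new : ∀ b ∈ D, ∀ x : Q,
        (x ∈ cl t D ∨ ∃ y ∈ D, ∃ v ∈ cl t D, x = t z y * v) →
        (t z b * x ∈ cl t D ∨ ∃ y ∈ D, ∃ v ∈ cl t D, t z b * x = t z y * v) := by
      rintro b hb x (hx | ⟨y, hy, v, hv, rfl⟩)
      · exact Or.inr ⟨b, hb, x, hx, rfl⟩
      · by_cases hby : b = y
        · subst hby
          left
          rw [← mul_assoc, h.sq z b (hne b hb), one_mul]
          exact hv
        · right
          refine ⟨y, hy, t y b * v, Subgroup.mul_mem _ (mem y hy b hb (Ne.symm hby)) hv, ?_⟩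
          have e := h.tri y z b (hne y hy).symm (hne b hb) (Ne.symm hby)
          rw [← e, h.symm y z (hne y hy).symm]
          calc t z b * (t z y * v) = 1 * t z b * t z y * v := by group
            _ = (t z y * t z y) * t z b * t z y * v := by rw [h.sq z y (hne y hy)]
            _ = t z y * (t z y * t z b * t z y * v) := by group
    intro a ha b hb hab x hx
    rw [Finset.mem_insert] at ha hb
    rcases ha with rfl | ha
    · rcases hb with rfl | hb
      · exact absurd rfl hab
      · exact new b hb x hx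
    · rcases hb with rfl | hb
      · rw [h.symm a b hab]
        exact new a ha x hx
      · rcases hx with hx | ⟨y, hy, v, hv, rfl⟩
        · exact Or.inl (Subgroup.mul_mem _ (mem a ha b hb hab) hx)
        · right
          by_cases hay : a = y
          · subst hay
            refine ⟨b, hb, t a b * v, Subgroup.mul_mem _ (mem a ha b hb hab) hv, ?_⟩
            have e := h.tri b a z hab.symm (hne a ha).symm (hne b hb).symm
            rw [h.symm z b (hne b hb), ← e, h.symm b a hab.symm, h.symm a z (hne a ha).symm]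
            calc t a b * (t z a * v) = t a b * t z a * (1 * v) := by group
              _ = t a b * t z a * ((t a b * t a b) * v) := by rw [h.sq a b hab]
              _ = t a b * t z a * t a b * (t a b * v) := by group
          · by_cases hby : b = y
            · subst hby
              refine ⟨a, ha, t a b * v, Subgroup.mul_mem _ (mem a ha b hb hab) hv, ?_⟩
              have e := h.tri a b z hab (hne b hb).symm (hne a ha).symm
              rw [h.symm z a (hne a ha), ← e, h.symm b z (hne b hb).symm]
              calc t a b * (t z b * v) = t a b * t z b * (1 * v) := by group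
                _ = t a b * t z b * ((t a b * t a b) * v) := by rw [h.sq a b hab]
                _ = t a b * t z b * t a b * (t a b * v) := by group
            · refine ⟨y, hy, t a b * v, Subgroup.mul_mem _ (mem a ha b hb hab) hv, ?_⟩
              have e := h.comm hab (hne a ha).symm hay (hne b hb).symm hby (hne y hy)
              rw [← mul_assoc, e, mul_assoc]
  induction hx using Subgroup.closure_induction_left with
  | one => exact Or.inl (Subgroup.one_mem _)
  | mul_left x hx y _ ih =>
    obtain ⟨a, ha, b, hb, hab, rfl⟩ := hx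
    exact step a ha b hb hab y ih
  | inv_mul_cancel x hx y _ ih =>
    obtain ⟨a, ha, b, hb, hab, rfl⟩ := hx
    rw [inv_eq_of_mul_eq_one_left (h.sq a b hab)]
    exact step a ha b hb hab y ih

theorem Tr.inj {t : Z → Z → Q} (h : Tr t) (q : Q →* Perm Z)
    (hq : ∀ a b, a ≠ b → q (t a b) = swap a b) (x : Q)
    (hx : x ∈ Subgroup.closure {y | ∃ a b, a ≠ b ∧ y = t a b}) (h1 : q x = 1) : x = 1 := by
  obtain ⟨D, hD⟩ := exists_cl t x hx
  clear hx
  induction D using Finset.induction_on generalizing x with
  | empty =>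
    have : cl t ∅ = ⊥ := by
      unfold cl
      rw [Subgroup.closure_eq_bot_iff]
      rintro y ⟨a, ha, _⟩
      exact absurd ha (Finset.notMem_empty a)
    rw [this] at hD
    exact Subgroup.mem_bot.1 hD
  | insert z D hz ih =>
    rcases split_cl h D z hz x hD with hD | ⟨y, hy, v, hv, rfl⟩
    · exact ih x h1 hD
    · exfalso
      have hzy : z ≠ y := fun e => hz (e ▸ hy)
      have h2 : q (t z y * v) z = y := by
        rw [map_mul, Perm.mul_apply, fix_cl t q hq D z hz v hv, hq z y hzy, swap_apply_left]
      rw [h1] at h2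
      exact hzy h2

end

end Pool.Agent.TH107.BH
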