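import Pool.Agent.TH107.BH.Sym

set_option autoImplicit false

/-!
Three copies: the relations between transpositions of points of different copies imply the others.
-/

namespace Pool.Agent.TH107.BH

open Equiv

universe u v

/-- a family of involutions for the pairs of points in different copies -/
structure Pre {Q : Type u} {X : Type v} [Group Q] (s : X × Fin 3 → X × Fin 3 → Q) : Prop where
  symm : ∀ a b, a.2 ≠ b.2 → s a b = s b a
  sq : ∀ a b, a.2 ≠ b.2 → s a b * s a b = 1
  tri : ∀ a b c, a.2 ≠ b.2 → b.2 ≠ c.2 → a.2 ≠ c.2 → s a b * s b c * s a b = s a c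
  braid : ∀ a b c, a ≠ b → a.2 = b.2 → a.2 ≠ c.2 →
    s a c * s b c * s a c = s b c * s a c * s b c
  comm : ∀ a b c d, a ≠ b → a.2 = b.2 → a.2 ≠ c.2 → a.2 ≠ d.2 → c.2 ≠ d.2 →
    s c d * (s a c * s b c * s a c) = (s a c * s b c * s a c) * s c d

section
variable {Q : Type u} {X : Type v} [Group Q] {s : X × Fin 3 → X × Fin 3 → Q}

/-- the transposition of two points of one copy, through a point `c` of another copy -/
def sig (s : X × Fin 3 → X × Fin 3 → Q) (a b c : X × Fin 3) : Q := s a c * s b c * s a c

theorem fin3 : ∀ i j : Fin 3, ∃ k : Fin 3, i ≠ k ∧ j ≠ k := by decide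

theorem Pre.sig_indep1 (h : Pre s) {a b c d : X × Fin 3} (hab : a ≠ b) (h2 : a.2 = b.2)
    (hc : a.2 ≠ c.2) (hd : a.2 ≠ d.2) (hcd : c.2 ≠ d.2) : sig s a b c = sig s a b d := by
  have e1 : s c d * s a c * s c d = s a d := by
    have := h.tri d c a (Ne.symm hcd) (Ne.symm hc) (Ne.symm hd)
    rw [h.symm d c (Ne.symm hcd), h.symm c a (Ne.symm hc), h.symm d a (Ne.symm hd)] at this
    exact this
  have e2 : s c d * s b c * s c d = s b d := by
    have := h.tri d c b (Ne.symm hcd) (h2 ▸ Ne.symm hc) (h2 ▸ Ne.symm hd)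
    rw [h.symm d c (Ne.symm hcd), h.symm c b (h2 ▸ Ne.symm hc), h.symm d b (h2 ▸ Ne.symm hd)]
      at this
    exact this
  have hs := h.sq c d hcd
  have hcm := h.comm a b c d hab h2 hc hd hcd
  unfold sig
  rw [← e1, ← e2]
  have e3 : s c d * s a c * s c d * (s c d * s b c * s c d) * (s c d * s a c * s c d) =
      s c d * (s a c * s b c * s a c) * s c d := by
    calc s c d * s a c * s c d * (s c d * s b c * s c d) * (s c d * s a c * s c d)
        = s c d * s a c * (s c d * s c d) * s b c * (s c d * s c d) * s a c * s c d := by group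
      _ = s c d * (s a c * s b c * s a c) * s c d := by rw [hs]; group
  rw [e3, hcm, mul_assoc (s a c * s b c * s a c), hs, mul_one]

theorem Pre.sig_indep (h : Pre s) {a b c d : X × Fin 3} (hab : a ≠ b) (h2 : a.2 = b.2)
    (hc : a.2 ≠ c.2) (hd : a.2 ≠ d.2) : sig s a b c = sig s a b d := by
  by_cases hcd : c.2 = d.2
  · obtain ⟨k, hk1, hk2⟩ := fin3 a.2 c.2
    rw [h.sig_indep1 hab h2 hc (d := (a.1, k)) hk1 hk2,
      ← h.sig_indep1 hab h2 hd (d := (a.1, k)) hk1 (hcd ▸ hk2)]
  · exact h.sig_indep1 hab h2 hc hd hcd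

theorem next_ne (i : Fin 3) : i ≠ i + 1 := by
  revert i; decide

/-- the family of all transpositions -/
def full (s : X × Fin 3 → X × Fin 3 → Q) (a b : X × Fin 3) : Q :=
  if a.2 = b.2 then sig s a b (a.1, a.2 + 1) else s a b

theorem Pre.full_same (h : Pre s) {a b c : X × Fin 3} (hab : a ≠ b) (h2 : a.2 = b.2)
    (hc : a.2 ≠ c.2) : full s a b = sig s a b c := by
  unfold full
  rw [if_pos h2]
  exact h.sig_indep hab h2 (next_ne _) hc

theorem full_ne {a b : X × Fin 3} (h2 : a.2 ≠ b.2) : full s a b = s a b := by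
  unfold full
  rw [if_neg h2]

theorem six {x y z : Q} (hx : x * x = 1) (hy : y * y = 1) (hz : x * y * x = z)
    (hb : x * y * x = y * x * y) : z * y * z = x ∧ y * z * y = x ∧ x * z * x = y ∧ z * z = 1 := by
  refine ⟨?_, ?_, ?_, ?_⟩
  · rw [← hz]
    calc x * y * x * y * (x * y * x) = (x * y * x) * y * (x * y * x) := by group
      _ = (y * x * y) * y * (y * x * y) := by rw [hb]
      _ = y * x * (y * y) * y * x * y := by group
      _ = y * (x * y * x) * y := by rw [hy]; group
      _ = y * (y * x * y) * y := by rw [hb]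
      _ = (y * y) * x * (y * y) := by group
      _ = x := by rw [hy]; group
  · rw [← hz, hb]
    calc y * (y * x * y) * y = (y * y) * x * (y * y) := by group
      _ = x := by rw [hy]; group
  · rw [← hz]
    calc x * (x * y * x) * x = (x * x) * y * (x * x) := by group
      _ = y := by rw [hx]; group
  · rw [← hz]
    calc x * y * x * (x * y * x) = x * y * (x * x) * y * x := by group
      _ = x * (y * y) * x := by rw [hx]; group
      _ = 1 := by rw [hy, mul_one, hx]

theorem Pre.full_symm (h : Pre s) (a b : X × Fin 3) (hab : a ≠ b) :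
    full s a b = full s b a := by
  by_cases h2 : a.2 = b.2
  · rw [h.full_same hab h2 (c := (a.1, a.2 + 1)) (next_ne _),
      h.full_same hab.symm h2.symm (c := (a.1, a.2 + 1)) (h2 ▸ next_ne _)]
    exact h.braid a b _ hab h2 (next_ne _)
  · rw [full_ne h2, full_ne (Ne.symm h2), h.symm a b h2]

theorem Pre.full_sq (h : Pre s) (a b : X × Fin 3) (hab : a ≠ b) :
    full s a b * full s a b = 1 := by
  by_cases h2 : a.2 = b.2
  · rw [h.full_same hab h2 (c := (a.1, a.2 + 1)) (next_ne _)]
    exact (six (h.sq a _ (next_ne _)) (h.sq b _ (h2 ▸ next_ne _)) rfl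
      (h.braid a b _ hab h2 (next_ne _))).2.2.2
  · rw [full_ne h2, h.sq a b h2]

theorem Pre.tri_ns (h : Pre s) (a b c : X × Fin 3) (hab : a ≠ b) (hbc : b ≠ c) (hac : a ≠ c)
    (hn : ¬ (a.2 = b.2 ∧ b.2 = c.2)) : full s a b * full s b c * full s a b = full s a c := by
  by_cases h1 : a.2 = b.2
  · have h2 : b.2 ≠ c.2 := fun e => hn ⟨h1, e⟩
    have h3 : a.2 ≠ c.2 := h1 ▸ h2
    rw [h.full_same hab h1 h3, full_ne h2, full_ne h3]
    exact (six (h.sq a c h3) (h.sq b c h2) rfl (h.braid a b c hab h1 h3)).1
  · by_cases h2 : b.2 = c.2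
    · have h3 : a.2 ≠ c.2 := h2 ▸ h1
      rw [h.full_same hbc h2 (c := a) (Ne.symm h1), full_ne h1, full_ne h3]
      have e := six (h.sq b a (Ne.symm h1)) (h.sq c a (Ne.symm h3)) rfl
        (h.braid b c a hbc h2 (Ne.symm h1))
      unfold sig
      rw [h.symm a b h1, h.symm a c h3]
      exact e.2.2.1
    · by_cases h3 : a.2 = c.2
      · rw [h.full_same hac h3 h1, full_ne h1, full_ne h2, h.symm b c h2]
        rfl
      · rw [full_ne h1, full_ne h2, full_ne h3]
        exact h.tri a b c h1 h2 h3

theorem Pre.tri_same (h : Pre s) (a b c : X × Fin 3) (hab : a ≠ b) (hbc : b ≠ c) (hac : a ≠ c)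
    (h1 : a.2 = b.2) (h2 : b.2 = c.2) : full s a b * full s b c * full s a b = full s a c := by
  obtain ⟨j, hj, _⟩ := fin3 a.2 a.2
  obtain ⟨k, hk, hjk⟩ := fin3 a.2 j
  set d : X × Fin 3 := (a.1, j) with hd
  set e : X × Fin 3 := (a.1, k) with he
  have had : a.2 ≠ d.2 := hj
  have hae : a.2 ≠ e.2 := hk
  have hde : d.2 ≠ e.2 := hjk
  have nd : ∀ x : X × Fin 3, a.2 = x.2 → x ≠ d := fun x hx e => had (hx.trans (congrArg Prod.snd e))
  have ne : ∀ x : X × Fin 3, a.2 = x.2 → x ≠ e := fun x hx e => hae (hx.trans (congrArg Prod.snd e))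
  have hne : d ≠ e := fun e' => hde (congrArg Prod.snd e')
  -- commutation of a transposition with one in another pair
  have cm : ∀ b : X × Fin 3, a ≠ b → a.2 = b.2 →
      full s a d * full s b e = full s b e * full s a d := by
    intro b hab hb
    refine four_points (bc := full s d b) (ac := full s a b) (bd := full s d e) (ad := full s a e)
      (h.full_sq a d (nd a rfl)) (h.full_sq d b (nd b hb).symm) ?_ ?_ ?_ ?_
    · exact h.tri_ns a d e (nd a rfl) hne (ne a rfl) (fun e' => had e'.1)
    · exact h.tri_ns d b e (nd b hb).symm (ne b hb) hne (fun e' => hae (hb.trans e'.2))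
    · exact h.tri_ns a b e hab (ne b hb) (ne a rfl) (fun e' => hae (hb.trans e'.2))
    · exact h.tri_ns a d b (nd a rfl) (nd b hb).symm hab (fun e' => had e'.1)
  have hac2 : a.2 = c.2 := h1.trans h2
  have c1 := cm b hab h1
  have c2 := cm c hac hac2
  have ebc : full s b e * full s c e * full s b e = full s b c := by
    rw [h.full_symm c e (ne c hac2)]
    exact h.tri_ns b e c (ne b h1) (ne c hac2).symm hbc (fun e' => hae (h1.trans e'.1))
  have c3 : full s a d * full s b c = full s b c * full s a d := by
    rw [← ebc]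
    calc full s a d * (full s b e * full s c e * full s b e)
        = (full s a d * full s b e) * full s c e * full s b e := by group
      _ = full s b e * (full s a d * full s c e) * full s b e := by rw [c1]; group
      _ = full s b e * full s c e * (full s a d * full s b e) := by rw [c2]; group
      _ = full s b e * full s c e * full s b e * full s a d := by rw [c1]; group
  have eab : full s a d * full s d b * full s a d = full s a b :=
    h.tri_ns a d b (nd a rfl) (nd b h1).symm hab (fun e' => had e'.1)
  have eac : full s a d * full s d c * full s a d = full s a c :=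
    h.tri_ns a d c (nd a rfl) (nd c hac2).symm hac (fun e' => had e'.1)
  have edc : full s d b * full s b c * full s d b = full s d c :=
    h.tri_ns d b c (nd b h1).symm hbc (nd c hac2).symm (fun e' => had (h1.trans e'.1.symm))
  have hs := h.full_sq a d (nd a rfl)
  calc full s a b * full s b c * full s a b
      = full s a d * full s d b * (full s a d * full s b c) * full s a d * full s d b *
        full s a d := by rw [← eab]; group
    _ = full s a d * full s d b * full s b c * (full s a d * full s a d) * full s d b *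
        full s a d := by rw [c3]; group
    _ = full s a d * (full s d b * full s b c * full s d b) * full s a d := by rw [hs]; group
    _ = full s a c := by rw [edc, eac]

theorem Pre.full_Tr (h : Pre s) : Tr (full s) where
  symm := h.full_symm
  sq := h.full_sq
  tri := by
    intro a b c hab hbc hac
    by_cases hn : a.2 = b.2 ∧ b.2 = c.2
    · exact h.tri_same a b c hab hbc hac hn.1 hn.2
    · exact h.tri_ns a b c hab hbc hac hn

end

end Pool.Agent.TH107.BH
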