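import Pool.Agent.TH107.BH.FP

set_option autoImplicit false

/-!
Squares of actions with finitely many orbits of pairs and finitely generated point stabilizers.
-/

namespace Pool.Agent.TH107.BH

open Equiv

universe u v w

theorem fp_fg {G : Type u} [Group G] [h : Group.IsFinitelyPresented G] : Group.FG G := by
  obtain ⟨n, φ, hφ, _⟩ := h.out
  exact Group.fg_of_surjective hφ

theorem fp_prod {G : Type u} {H : Type v} [Group G] [Group H] [Group.IsFinitelyPresented G]
    [Group.IsFinitelyPresented H] : Group.IsFinitelyPresented (G × H) := by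
  obtain ⟨S, hS, hSf⟩ := Group.fg_iff.1 (fp_fg (G := G))
  obtain ⟨T, hT, hTf⟩ := Group.fg_iff.1 (fp_fg (G := H))
  refine Group.IsFinitelyPresented.of_surjective (Monoid.Coprod.toProd (M := G) (N := H))
    Monoid.Coprod.toProd_surjective ?_
  let R : Set (Monoid.Coprod G H) := (fun u : G × H =>
    Monoid.Coprod.inl u.1 * Monoid.Coprod.inr u.2 * (Monoid.Coprod.inl u.1)⁻¹ *
      (Monoid.Coprod.inr u.2)⁻¹) '' (S ×ˢ T)
  refine ⟨R, (hSf.prod hTf).image _, le_antisymm ?_ ?_⟩
  · refine Subgroup.normalClosure_le_normal ?_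
    rintro _ ⟨⟨a, b⟩, _, rfl⟩
    rw [SetLike.mem_coe, MonoidHom.mem_ker]
    simp only [map_mul, map_inv, Monoid.Coprod.toProd_apply_inl, Monoid.Coprod.toProd_apply_inr]
    ext <;> simp
  · let k : Monoid.Coprod G H →* Monoid.Coprod G H ⧸ Subgroup.normalClosure R :=
      QuotientGroup.mk' _
    let f : G →* Monoid.Coprod G H ⧸ Subgroup.normalClosure R := k.comp Monoid.Coprod.inl
    let g : H →* Monoid.Coprod G H ⧸ Subgroup.normalClosure R := k.comp Monoid.Coprod.inr
    have h1 : ∀ s ∈ S, ∀ t ∈ T, f s * g t = g t * f s := by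
      intro s hs t ht
      have h2 : k (Monoid.Coprod.inl s * Monoid.Coprod.inr t * (Monoid.Coprod.inl s)⁻¹ *
          (Monoid.Coprod.inr t)⁻¹) = 1 :=
        (QuotientGroup.eq_one_iff _).2 (Subgroup.subset_normalClosure ⟨(s, t), ⟨hs, ht⟩, rfl⟩)
      simp only [map_mul, map_inv] at h2
      have h3 : f s * g t * (f s)⁻¹ * (g t)⁻¹ = 1 := h2
      have h4 := mul_inv_eq_one.1 h3
      exact mul_inv_eq_iff_eq_mul.1 h4
    have h2 : ∀ s ∈ S, ∀ b : H, f s * g b = g b * f s := by
      intro s hs b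
      have hb : b ∈ Subgroup.closure T := by rw [hT]; trivial
      have key : Subgroup.closure T ≤ (Subgroup.centralizer {f s}).comap g := by
        rw [Subgroup.closure_le]
        intro t ht
        rw [SetLike.mem_coe, Subgroup.mem_comap, Subgroup.mem_centralizer_singleton_iff]
        exact (h1 s hs t ht).symm
      have := key hb
      rw [Subgroup.mem_comap, Subgroup.mem_centralizer_singleton_iff] at this
      exact this.symm
    have h3 : ∀ (a : G) (b : H), f a * g b = g b * f a := by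
      intro a b
      have ha : a ∈ Subgroup.closure S := by rw [hS]; trivial
      have key : Subgroup.closure S ≤ (Subgroup.centralizer {g b}).comap f := by
        rw [Subgroup.closure_le]
        intro s hs
        rw [SetLike.mem_coe, Subgroup.mem_comap, Subgroup.mem_centralizer_singleton_iff]
        exact h2 s hs b
      have := key ha
      rw [Subgroup.mem_comap, Subgroup.mem_centralizer_singleton_iff] at this
      exact this
    let β : G × H →* Monoid.Coprod G H ⧸ Subgroup.normalClosure R :=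
      MonoidHom.noncommCoprod f g (fun a b => h3 a b)
    have h4 : β.comp Monoid.Coprod.toProd = k := by
      apply Monoid.Coprod.hom_ext
      · ext a
        change β (Monoid.Coprod.toProd (Monoid.Coprod.inl a)) = f a
        rw [Monoid.Coprod.toProd_apply_inl]
        change f a * g 1 = f a
        rw [map_one, mul_one]
      · ext a
        change β (Monoid.Coprod.toProd (Monoid.Coprod.inr a)) = g a
        rw [Monoid.Coprod.toProd_apply_inr]
        change f 1 * g a = g a
        rw [map_one, one_mul]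
    intro x hx
    rw [MonoidHom.mem_ker] at hx
    have h5 : k x = 1 := by
      rw [← h4, MonoidHom.comp_apply, hx, map_one]
    exact (QuotientGroup.eq_one_iff x).1 h5

/-- three copies of a group -/
def e3 (G : Type u) [Group G] : G × G × G ≃* (Fin 3 → G) where
  toFun q := ![q.1, q.2.1, q.2.2]
  invFun p := (p 0, p 1, p 2)
  left_inv _ := rfl
  right_inv p := by
    ext i
    fin_cases i <;> rfl
  map_mul' p q := by
    ext i
    fin_cases i <;> rfl

theorem fp_three {G : Type u} [Group G] [Group.IsFinitelyPresented G] :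
    Group.IsFinitelyPresented (Fin 3 → G) := by
  haveI : Group.IsFinitelyPresented (G × G) := fp_prod
  haveI : Group.IsFinitelyPresented (G × G × G) := fp_prod
  exact Group.IsFinitelyPresented.equiv (e3 G)

/-- the point stabilizer -/
def st {G : Type u} [Group G] {X : Type v} (ρ : G →* Perm X) (x : X) : Subgroup G :=
  (MulAction.stabilizer (Perm X) x).comap ρ

theorem mem_st {G : Type u} [Group G] {X : Type v} {ρ : G →* Perm X} {x : X} {g : G} :
    g ∈ st ρ x ↔ ρ g x = x := Iff.rfl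

/-- finitely many orbits of pairs and finitely generated point stabilizers -/
structure TypeA {G : Type u} [Group G] {X : Type v} (ρ : G →* Perm X) : Prop where
  orb : ∃ T : Set (X × X), T.Finite ∧ ∀ x y, ∃ t ∈ T, ∃ g, ρ g t.1 = x ∧ ρ g t.2 = y
  stab : ∀ x, (st ρ x).FG

section
variable {G : Type u} [Group G] {X : Type v}

/-- the square of an action -/
def sqr (ρ : G →* Perm X) : G × G →* Perm (X × X) where
  toFun g := Equiv.prodCongr (ρ g.1) (ρ g.2)
  map_one' := by ext z <;> simp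
  map_mul' g h := by ext z <;> simp

theorem sqr_apply (ρ : G →* Perm X) (g : G × G) (z : X × X) :
    sqr ρ g z = (ρ g.1 z.1, ρ g.2 z.2) := rfl

theorem TypeA.sqr {ρ : G →* Perm X} (h : TypeA ρ) : TypeA (sqr ρ) := by
  constructor
  · obtain ⟨T, hTf, hT⟩ := h.orb
    refine ⟨(fun u : (X × X) × (X × X) => ((u.1.1, u.2.1), (u.1.2, u.2.2))) '' (T ×ˢ T),
      (hTf.prod hTf).image _, ?_⟩
    rintro ⟨x1, x2⟩ ⟨y1, y2⟩
    obtain ⟨t, ht, g, h1, h2⟩ := hT x1 y1
    obtain ⟨t', ht', g', h1', h2'⟩ := hT x2 y2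
    refine ⟨_, ⟨(t, t'), ⟨ht, ht'⟩, rfl⟩, (g, g'), ?_, ?_⟩
    · rw [sqr_apply]; simp only [h1, h1']
    · rw [sqr_apply]; simp only [h2, h2']
  · rintro ⟨x, y⟩
    have : st (BH.sqr ρ) (x, y) = (st ρ x).prod (st ρ y) := by
      ext g
      rw [mem_st, sqr_apply, Subgroup.mem_prod, mem_st, mem_st, Prod.mk.injEq]
    rw [this]
    exact (h.stab x).prod (h.stab y)

theorem sqr_nf [Infinite X] {ρ : G →* Perm X} (hρ : Function.Injective ρ) (g : G × G)
    (hg : {z | sqr ρ g z ≠ z}.Finite) : g = 1 := by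
  obtain ⟨g1, g2⟩ := g
  have h1 : ρ g1 = 1 := by
    ext x
    rw [Perm.one_apply]
    by_contra hx
    have : ((fun y : X => (x, y)) '' Set.univ).Infinite :=
      Set.infinite_univ.image (fun a _ b _ h => congrArg Prod.snd h)
    apply this
    refine hg.subset ?_
    rintro _ ⟨y, _, rfl⟩
    intro h
    rw [sqr_apply] at h
    exact hx (congrArg Prod.fst h)
  have h2 : ρ g2 = 1 := by
    ext x
    rw [Perm.one_apply]
    by_contra hx
    have : ((fun y : X => (y, x)) '' Set.univ).Infinite :=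
      Set.infinite_univ.image (fun a _ b _ h => congrArg Prod.fst h)
    apply this
    refine hg.subset ?_
    rintro _ ⟨y, _, rfl⟩
    intro h
    rw [sqr_apply] at h
    exact hx (congrArg Prod.snd h)
  rw [← map_one ρ] at h1 h2
  rw [hρ h1, hρ h2]
  rfl

/-- three independent copies of an action -/
def tri (ρ : G →* Perm X) : (Fin 3 → G) →* Perm (X × Fin 3) where
  toFun p :=
    { toFun := fun z => (ρ (p z.2) z.1, z.2)
      invFun := fun z => ((ρ (p z.2))⁻¹ z.1, z.2)
      left_inv := fun z => by simp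
      right_inv := fun z => by simp }
  map_one' := by ext z <;> simp
  map_mul' p q := by ext z <;> simp

theorem tri_apply (ρ : G →* Perm X) (p : Fin 3 → G) (z : X × Fin 3) :
    tri ρ p z = (ρ (p z.2) z.1, z.2) := rfl

theorem tri_eq {ρ : G →* Perm X} {p : Fin 3 → G} {x : X} {a : X × Fin 3} (h : ρ (p a.2) x = a.1) :
    tri ρ p (x, a.2) = a := by
  rw [tri_apply]; simp only [h]

theorem tri_good {ρ : G →* Perm X} (hfg : Group.FG G) (h : TypeA ρ) (hnf : ∀ g, {x | ρ g x ≠ x}.Finite → g = 1) :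
    Good (tri ρ) := by
  classical
  obtain ⟨T, hTf, hT⟩ := h.orb
  let O : Set X := Prod.fst '' T
  have hOf : O.Finite := hTf.image _
  have hO : ∀ x, ∃ o ∈ O, ∃ g, ρ g o = x := by
    intro x
    obtain ⟨t, ht, g, h1, _⟩ := hT x x
    exact ⟨t.1, ⟨t, ht, rfl⟩, g, h1⟩
  have hU : (Set.univ : Set (Fin 3)).Finite := Set.finite_univ
  refine ⟨fun p z => rfl, ?_, ?_, ?_, ?_, ?_, ?_⟩
  · intro p hp
    funext i
    apply hnf
    refine Set.Finite.of_finite_image (f := fun x : X => (x, i)) (hp.subset ?_)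
      (fun a _ b _ h => congrArg Prod.fst h)
    rintro _ ⟨x, hx, rfl⟩
    intro h
    rw [tri_apply] at h
    exact hx (congrArg Prod.fst h)
  · refine ⟨((fun u : (X × X) × (Fin 3 × Fin 3) => ((u.1.1, u.2.1), (u.1.2, u.2.2))) ''
      ((O ×ˢ O) ×ˢ (Set.univ ×ˢ Set.univ))) ∩ {t | t.1.2 ≠ t.2.2},
      (((hOf.prod hOf).prod (hU.prod hU)).image _).subset Set.inter_subset_left,
      fun t ht => ht.2, ?_⟩
    intro a b hab
    obtain ⟨x, hx, g, hg⟩ := hO a.1
    obtain ⟨y, hy, g', hg'⟩ := hO b.1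
    refine ⟨((x, a.2), (y, b.2)), ⟨⟨((x, y), (a.2, b.2)), ⟨⟨hx, hy⟩, trivial, trivial⟩, rfl⟩,
      hab⟩, fun k => if k = a.2 then g else g', tri_eq ?_, tri_eq ?_⟩
    · rw [if_pos rfl, hg]
    · rw [if_neg (Ne.symm hab), hg']
  · intro a b hab
    have : pst (tri ρ) a b = Subgroup.pi Set.univ
        (fun k => if k = a.2 then st ρ a.1 else if k = b.2 then st ρ b.1 else ⊤) := by
      ext p
      rw [mem_pst, Subgroup.mem_pi]
      constructor
      · rintro ⟨h1, h2⟩ k _
        have h1' : ρ (p a.2) a.1 = a.1 := congrArg Prod.fst h1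
        have h2' : ρ (p b.2) b.1 = b.1 := congrArg Prod.fst h2
        by_cases hk : k = a.2
        · rw [if_pos hk, hk]; exact h1'
        · rw [if_neg hk]
          by_cases hk2 : k = b.2
          · rw [if_pos hk2, hk2]; exact h2'
          · rw [if_neg hk2]; trivial
      · intro h
        have h1 := h a.2 trivial
        have h2 := h b.2 trivial
        rw [if_pos rfl, mem_st] at h1
        rw [if_neg (Ne.symm hab), if_pos rfl, mem_st] at h2
        exact ⟨tri_eq h1, tri_eq h2⟩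
    rw [this]
    refine Subgroup.FG.pi ?_
    intro k
    by_cases hk : k = a.2
    · rw [if_pos hk]; exact h.stab _
    · rw [if_neg hk]
      by_cases hk2 : k = b.2
      · rw [if_pos hk2]; exact h.stab _
      · rw [if_neg hk2]; exact hfg.out
  · refine ⟨(fun u : (X × X × X) × (Fin 3 × Fin 3 × Fin 3) =>
      ((u.1.1, u.2.1), (u.1.2.1, u.2.2.1), (u.1.2.2, u.2.2.2))) ''
      ((O ×ˢ O ×ˢ O) ×ˢ (Set.univ ×ˢ Set.univ ×ˢ Set.univ)),
      ((hOf.prod (hOf.prod hOf)).prod (hU.prod (hU.prod hU))).image _, ?_⟩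
    intro a b c hab hbc hac
    obtain ⟨x, hx, g, hg⟩ := hO a.1
    obtain ⟨y, hy, g', hg'⟩ := hO b.1
    obtain ⟨z, hz, g'', hg''⟩ := hO c.1
    refine ⟨_, ⟨((x, y, z), (a.2, b.2, c.2)), ⟨⟨hx, hy, hz⟩, trivial, trivial, trivial⟩, rfl⟩,
      fun k => if k = a.2 then g else if k = b.2 then g' else g'', tri_eq ?_, tri_eq ?_, tri_eq ?_⟩
    · rw [if_pos rfl, hg]
    · rw [if_neg (Ne.symm hab), if_pos rfl, hg']
    · rw [if_neg (Ne.symm hac), if_neg (Ne.symm hbc), hg'']
  · refine ⟨(fun u : ((X × X) × X) × (Fin 3 × Fin 3) =>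
      ((u.1.1.1, u.2.1), (u.1.1.2, u.2.1), (u.1.2, u.2.2))) ''
      ((T ×ˢ O) ×ˢ (Set.univ ×ˢ Set.univ)),
      ((hTf.prod hOf).prod (hU.prod hU)).image _, ?_⟩
    intro a b c _ hab hac
    obtain ⟨t, ht, g, hg1, hg2⟩ := hT a.1 b.1
    obtain ⟨z, hz, g'', hg''⟩ := hO c.1
    refine ⟨_, ⟨((t, z), (a.2, c.2)), ⟨⟨ht, hz⟩, trivial, trivial⟩, rfl⟩,
      fun k => if k = a.2 then g else g'', tri_eq ?_, ?_, tri_eq ?_⟩
    · rw [if_pos rfl, hg1]
    · simp only
      rw [hab]
      refine tri_eq ?_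
      rw [if_pos rfl, hg2]
    · rw [if_neg (Ne.symm hac), hg'']
  · refine ⟨(fun u : ((X × X) × X × X) × (Fin 3 × Fin 3 × Fin 3) =>
      ((u.1.1.1, u.2.1), (u.1.1.2, u.2.1), (u.1.2.1, u.2.2.1), (u.1.2.2, u.2.2.2))) ''
      ((T ×ˢ O ×ˢ O) ×ˢ (Set.univ ×ˢ Set.univ ×ˢ Set.univ)),
      ((hTf.prod (hOf.prod hOf)).prod (hU.prod (hU.prod hU))).image _, ?_⟩
    intro a b c d _ hab hac had hcd
    obtain ⟨t, ht, g, hg1, hg2⟩ := hT a.1 b.1
    obtain ⟨y, hy, g', hg'⟩ := hO c.1
    obtain ⟨z, hz, g'', hg''⟩ := hO d.1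
    refine ⟨_, ⟨((t, y, z), (a.2, c.2, d.2)), ⟨⟨ht, hy, hz⟩, trivial, trivial, trivial⟩, rfl⟩,
      fun k => if k = a.2 then g else if k = c.2 then g' else g'', tri_eq ?_, ?_, tri_eq ?_,
      tri_eq ?_⟩
    · rw [if_pos rfl, hg1]
    · simp only
      rw [hab]
      refine tri_eq ?_
      rw [if_pos rfl, hg2]
    · rw [if_neg (Ne.symm hac), if_pos rfl, hg']
    · rw [if_neg (Ne.symm had), if_neg (Ne.symm hcd), hg'']

end

end Pool.Agent.TH107.BH
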